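import Pool.Agent.helper81.EY.IDef
import Pool.Agent.helper50.EY.Open
import Pool.Agent.helper35.EY.FinE

set_option autoImplicit false
set_option linter.unusedSectionVars false

/-!
# EY-CDef: the core form (definition, derivatives, chart equations)

`x = (b, z)`, `b = x_none`, `P = P(b, z)` of degree `q + 1`, `D = τ b^(q-2) + (q-1) ρ w^(q-2)`,
`f = P + τ w b^q + ρ w^(q-1) b² + u^(q-1) y² + δ w^(q-1) y² + β u y w D`; the metric is `2 u w + y² + b² + |z|²`.
Variables: `u = none`, `w = some none`, `y = some (some none)`, `x_j = some (some (some j))`, `j : Option ι`.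
Chart `u = 1`: `w = none`, `y = some none`, `x_j = some (some j)`.
-/

namespace EY

namespace Core

open MvPolynomial

noncomputable section

variable {ι : Type}

/-- `D = τ b^(q-2) + (q-1) ρ w^(q-2)`, for given polynomials `b`, `w` -/
def DD0 {σ : Type} (q : ℕ) (τ ρ : ℂ) (b w : MvPolynomial σ ℂ) : MvPolynomial σ ℂ :=
  C τ * b ^ (q - 2) + C (((q : ℂ) - 1) * ρ) * w ^ (q - 2)

/-- the core form -/
def coreF (q : ℕ) (τ ρ δ β : ℂ) (P : MvPolynomial (Option ι) ℂ) :
    MvPolynomial (Option (Option (Option (Option ι)))) ℂ :=
  rename (fun j => some (some (some j))) P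
    + C τ * (X (some none) * X (some (some (some none))) ^ q)
    + C ρ * (X (some none) ^ (q - 1) * X (some (some (some none))) ^ 2)
    + X none ^ (q - 1) * X (some (some none)) ^ 2
    + C δ * (X (some none) ^ (q - 1) * X (some (some none)) ^ 2)
    + C β * (X none * X (some (some none)) * X (some none) *
        DD0 q τ ρ (X (some (some (some none)))) (X (some none)))

/-! ### derivatives -/

lemma c_two {σ : Type} : (C 2 : MvPolynomial σ ℂ) = 2 := map_ofNat C 2

lemma c_three {σ : Type} : (C 3 : MvPolynomial σ ℂ) = 3 := map_ofNat C 3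

lemma pd_ren_none (P : MvPolynomial (Option ι) ℂ) (k : Option (Option (Option (Option ι))))
    (hk : ∀ j : Option ι, k ≠ some (some (some j))) :
    pderiv k (rename (fun j => some (some (some j))) P : MvPolynomial (Option (Option (Option (Option ι)))) ℂ) = 0 := by
  classical
  apply pderiv_eq_zero_of_notMem_vars
  intro hmem
  obtain ⟨o, _, ho⟩ := Finset.mem_image.mp (vars_rename _ P hmem)
  exact hk o ho.symm

lemma pd_ren_x (P : MvPolynomial (Option ι) ℂ) (j : Option ι) :
    pderiv (some (some (some j)))
      (rename (fun j => some (some (some j))) P : MvPolynomial (Option (Option (Option (Option ι)))) ℂ) =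
    rename (fun j => some (some (some j))) (pderiv j P) := by
  apply pderiv_rename (f := fun j : Option ι => some (some (some j)))
  intro a b h
  simpa using h

/-- `f_u = y ((q-1) u^(q-2) y + β w D)` -/
theorem pd_u (q : ℕ) (τ ρ δ β : ℂ) (P : MvPolynomial (Option ι) ℂ) :
    pderiv none (coreF q τ ρ δ β P) =
      X (some (some none)) * (((q - 1 : ℕ) : MvPolynomial (Option (Option (Option (Option ι)))) ℂ) *
          X none ^ (q - 2) * X (some (some none)) +
        C β * (X (some none) * DD0 q τ ρ (X (some (some (some none)))) (X (some none)))) := by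
  classical
  unfold coreF DD0
  rw [map_add, map_add, map_add, map_add, map_add, pd_ren_none P none (by simp)]
  simp only [Derivation.leibniz, Derivation.leibniz_pow, pderiv_X, pderiv_C, smul_eq_mul, nsmul_eq_mul,
    map_add, map_mul, map_pow, Pi.single_apply]
  simp
  have : q - 1 - 1 = q - 2 := by omega
  rw [this]
  ring

/-- `f_w = b² D + β u y (D + w D_w) + δ (q-1) w^(q-2) y²`, `w D_w = (q-1)(q-2) ρ w^(q-2)` -/
theorem pd_w {q : ℕ} (hq : 3 ≤ q) (τ ρ δ β : ℂ) (P : MvPolynomial (Option ι) ℂ) :
    pderiv (some none) (coreF q τ ρ δ β P) =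
      X (some (some (some none))) ^ 2 * DD0 q τ ρ (X (some (some (some none)))) (X (some none)) +
      C β * (X none * X (some (some none)) * (DD0 q τ ρ (X (some (some (some none)))) (X (some none)) +
        C (((q : ℂ) - 1) * ((q : ℂ) - 2) * ρ) * X (some none) ^ (q - 2))) +
      C (δ * ((q : ℂ) - 1)) * (X (some none) ^ (q - 2) * X (some (some none)) ^ 2) := by
  classical
  obtain ⟨p, rfl⟩ : ∃ p, q = p + 3 := ⟨q - 3, by omega⟩
  unfold coreF DD0
  rw [map_add, map_add, map_add, map_add, map_add, pd_ren_none P (some none) (by simp)]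
  simp only [Derivation.leibniz, Derivation.leibniz_pow, pderiv_X, pderiv_C, smul_eq_mul, nsmul_eq_mul,
    map_add, map_mul, map_pow, Pi.single_apply]
  have e1 : p + 3 - 1 = p + 2 := by omega
  have e2 : p + 3 - 2 = p + 1 := by omega
  have e3 : p + 2 - 1 = p + 1 := by omega
  have e4 : p + 1 - 1 = p := by omega
  simp only [e1, e2, e3, e4]
  simp
  simp only [c_two, c_three]
  ring

/-- `f_y = y (2 u^(q-1) + 2 δ w^(q-1)) + β u w D` -/
theorem pd_y (q : ℕ) (τ ρ δ β : ℂ) (P : MvPolynomial (Option ι) ℂ) :
    pderiv (some (some none)) (coreF q τ ρ δ β P) =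
      X (some (some none)) * (2 * X none ^ (q - 1) + C (2 * δ) * X (some none) ^ (q - 1)) +
      C β * (X none * X (some none) * DD0 q τ ρ (X (some (some (some none)))) (X (some none))) := by
  classical
  unfold coreF DD0
  rw [map_add, map_add, map_add, map_add, map_add, pd_ren_none P (some (some none)) (by simp)]
  simp only [Derivation.leibniz, Derivation.leibniz_pow, pderiv_X, pderiv_C, smul_eq_mul, nsmul_eq_mul,
    map_add, map_mul, map_pow, Pi.single_apply]
  simp
  simp only [c_two]
  ring

/-- `f_b = P_b + q τ w b^(q-1) + 2 ρ w^(q-1) b + β u y w (q-2) τ b^(q-3)` -/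
theorem pd_b {q : ℕ} (hq : 3 ≤ q) (τ ρ δ β : ℂ) (P : MvPolynomial (Option ι) ℂ) :
    pderiv (some (some (some none))) (coreF q τ ρ δ β P) =
      rename (fun j => some (some (some j))) (pderiv none P) +
      C ((q : ℂ) * τ) * (X (some none) * X (some (some (some none))) ^ (q - 1)) +
      C (2 * ρ) * (X (some none) ^ (q - 1) * X (some (some (some none)))) +
      C (β * (((q : ℂ) - 2) * τ)) *
        (X none * X (some (some none)) * X (some none) * X (some (some (some none))) ^ (q - 3)) := by
  classical
  obtain ⟨p, rfl⟩ : ∃ p, q = p + 3 := ⟨q - 3, by omega⟩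
  unfold coreF DD0
  rw [map_add, map_add, map_add, map_add, map_add, pd_ren_x P none]
  simp only [Derivation.leibniz, Derivation.leibniz_pow, pderiv_X, pderiv_C, smul_eq_mul, nsmul_eq_mul,
    map_add, map_mul, map_pow, Pi.single_apply]
  have e1 : p + 3 - 1 = p + 2 := by omega
  have e2 : p + 3 - 2 = p + 1 := by omega
  have e3 : p + 2 - 1 = p + 1 := by omega
  have e4 : p + 1 - 1 = p := by omega
  have e5 : p + 3 - 3 = p := by omega
  simp only [e1, e2, e3, e4, e5]
  simp
  simp only [c_two, c_three]
  ring

/-- `f_z = P_z` -/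
theorem pd_z (q : ℕ) (τ ρ δ β : ℂ) (P : MvPolynomial (Option ι) ℂ) (i : ι) :
    pderiv (some (some (some (some i)))) (coreF q τ ρ δ β P) =
      rename (fun j => some (some (some j))) (pderiv (some i) P) := by
  classical
  unfold coreF DD0
  rw [map_add, map_add, map_add, map_add, map_add, pd_ren_x P (some i)]
  simp [pderiv_X, Derivation.leibniz, Derivation.leibniz_pow]

/-! ### chart `u = 1`: `w = none`, `y = some none`, `b = some (some none)`, `z_i = some (some (some i))` -/

/-- `λ = f_w` in the chart -/
def cLam {ι : Type} (q : ℕ) (τ ρ δ β : ℂ) : MvPolynomial (Option (Option (Option ι))) ℂ :=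
  X (some (some none)) ^ 2 * DD0 q τ ρ (X (some (some none))) (X none) +
    C β * (X (some none) * (DD0 q τ ρ (X (some (some none))) (X none) +
      C (((q : ℂ) - 1) * ((q : ℂ) - 2) * ρ) * X none ^ (q - 2))) +
    C (δ * ((q : ℂ) - 1)) * (X none ^ (q - 2) * X (some none) ^ 2)

/-- the chart equations of the core form -/
def cSys {ι : Type} (q : ℕ) (τ ρ δ β : ℂ) (P : MvPolynomial (Option ι) ℂ) :
    Option (Option (Option ι)) → MvPolynomial (Option (Option (Option ι))) ℂ
  | none => C ((q : ℂ) - 1) * X (some none) ^ 2 +
      C β * (X (some none) * X none * DD0 q τ ρ (X (some (some none))) (X none)) - X none * cLam q τ ρ δ β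
  | some none => X (some none) * (2 + C (2 * δ) * X none ^ (q - 1)) +
      C β * (X none * DD0 q τ ρ (X (some (some none))) (X none)) - X (some none) * cLam q τ ρ δ β
  | some (some none) => rename (fun j => some (some j)) (pderiv none P) +
      C ((q : ℂ) * τ) * (X none * X (some (some none)) ^ (q - 1)) +
      C (2 * ρ) * (X none ^ (q - 1) * X (some (some none))) +
      C (β * (((q : ℂ) - 2) * τ)) * (X (some none) * X none * X (some (some none)) ^ (q - 3)) -
      X (some (some none)) * cLam q τ ρ δ β
  | some (some (some i)) => rename (fun j => some (some j)) (pderiv (some i) P) -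
      X (some (some (some i))) * cLam q τ ρ δ β

section chart

variable [Fintype ι] [DecidableEq ι]

lemma dehom_C' {κ : Type} [Fintype κ] [DecidableEq κ] (c : ℂ) :
    dehom (C c : MvPolynomial (Option κ) ℂ) = C c := dehom.commutes c

lemma dehom_DD0 {κ : Type} [Fintype κ] [DecidableEq κ] (q : ℕ) (τ ρ : ℂ) (k l : κ) :
    dehom (DD0 q τ ρ (X (some k)) (X (some l)) : MvPolynomial (Option κ) ℂ) = DD0 q τ ρ (X k) (X l) := by
  unfold DD0
  simp only [map_add, map_mul, map_pow, dehom_X_some, dehom_C']

lemma dehom_ren3 (g : MvPolynomial (Option ι) ℂ) :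
    dehom (rename (fun j => some (some (some j))) g : MvPolynomial (Option (Option (Option (Option ι)))) ℂ) =
      rename (fun j => some (some j)) g := by
  have h : (dehom : MvPolynomial (Option (Option (Option (Option ι)))) ℂ →ₐ[ℂ] _).comp
      (rename (fun j : Option ι => some (some (some j)))) = rename (fun j : Option ι => some (some j)) := by
    apply MvPolynomial.algHom_ext
    intro o
    rw [AlgHom.comp_apply, rename_X, rename_X, dehom_X_some]
  exact AlgHom.congr_fun h g

/-- the chart ideal of the core form -/
theorem coreF_aff {q : ℕ} (hq : 3 ≤ q) (τ ρ δ β : ℂ) (P : MvPolynomial (Option ι) ℂ) :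
    affIdeal (coreF q τ ρ δ β P) (gram (Option (Option ι))) (some none) =
      Ideal.span (Set.range (cSys q τ ρ δ β P)) := by
  have hlam : dehom (pderiv (some none) (coreF q τ ρ δ β P)) = cLam q τ ρ δ β := by
    rw [pd_w hq]
    unfold cLam
    simp only [map_add, map_mul, map_pow, dehom_X_some, dehom_X_none, dehom_C', dehom_DD0, one_mul]
  have hgen : ∀ j : Option (Option (Option (Option ι))), dehom (pderiv j (coreF q τ ρ δ β P) -
      sl (gram (Option (Option ι))) j * pderiv (some none) (coreF q τ ρ δ β P)) =
      match j with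
      | none => cSys q τ ρ δ β P none
      | some none => 0
      | some (some k) => cSys q τ ρ δ β P (some k) := by
    intro j
    rw [sl_gram, map_sub dehom, map_mul dehom, hlam]
    rcases j with _ | _ | _ | _ | i
    · rw [pd_u]
      have h1 : ((q - 1 : ℕ) : MvPolynomial (Option (Option (Option ι))) ℂ) = C ((q : ℂ) - 1) := by
        rw [← map_natCast (C : ℂ →+* MvPolynomial (Option (Option (Option ι))) ℂ), Nat.cast_sub (by omega)]
        norm_num
      simp only [slq, cSys, map_add, map_mul, map_pow, dehom_X_some, dehom_X_none, dehom_C', dehom_DD0, one_pow,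
        mul_one, map_natCast, h1]
      ring
    · simp only [slq, dehom_X_none, hlam]
      ring
    · rw [pd_y]
      simp only [slq, cSys, map_add, map_mul, map_pow, dehom_X_some, dehom_X_none, dehom_C', dehom_DD0, one_pow,
        mul_one, map_ofNat, one_mul]
    · rw [pd_b hq]
      simp only [slq, cSys, map_add, map_mul, map_pow, dehom_X_some, dehom_X_none, dehom_C', dehom_ren3, one_mul]
    · rw [pd_z]
      simp only [slq, cSys, dehom_X_some, dehom_ren3]
  unfold affIdeal
  apply le_antisymm
  · rw [Ideal.span_le]
    rintro _ ⟨j, rfl⟩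
    simp only []
    rw [hgen]
    rcases j with _ | _ | k
    · exact Ideal.subset_span ⟨none, rfl⟩
    · exact Ideal.zero_mem _
    · exact Ideal.subset_span ⟨some k, rfl⟩
  · rw [Ideal.span_le]
    rintro _ ⟨o, rfl⟩
    rcases o with _ | k
    · have := hgen none
      simp only [] at this
      rw [← this]
      exact Ideal.subset_span ⟨none, rfl⟩
    · have := hgen (some (some k))
      simp only [] at this
      rw [← this]
      exact Ideal.subset_span ⟨some (some k), rfl⟩

end chart

end

end Core

end EY
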