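import Pool.Agent.helper49.EY.CDef
import Pool.Agent.helper84.EY.CMul

set_option autoImplicit false
set_option linter.unusedSectionVars false
set_option linter.unusedSimpArgs false

/-!
# EY-CEw: the point `e_w` of the core form is isolated

The coordinates `u` and `w` are exchanged (`swu`), the chart of `f' = rename swu f` at `u = 1` is the chart of `f` at
`w = 1`; the local length there is positive by the weighted local Bezout theorem (weights `u, y : q - 1`, `b : q`,
`z : 1`).
-/

namespace EY

namespace Core

open MvPolynomial EY.X21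

noncomputable section

/-- the exchange of `u` and `w` -/
def swu (κ : Type) : Option (Option κ) → Option (Option κ)
  | none => some none
  | some none => none
  | some (some k) => some (some k)

theorem swu_swu {κ : Type} (o : Option (Option κ)) : swu κ (swu κ o) = o := by
  rcases o with _ | _ | k <;> rfl

theorem swu_inj (κ : Type) : Function.Injective (swu κ) := fun a b h => by
  rw [← swu_swu a, h, swu_swu]

section swap

variable {κ : Type} [Fintype κ] [DecidableEq κ]

theorem isEig_swu {f : MvPolynomial (Option (Option κ)) ℂ} {v : Option (Option κ) → ℂ}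
    (h : IsEig f (gram κ) v) : IsEig (rename (swu κ) f) (gram κ) (v ∘ swu κ) := by
  have hs : ∀ j : Option (Option κ), sl (gram κ) (swu κ j) = rename (swu κ) (sl (gram κ) j) := by
    intro j
    rw [sl_gram, sl_gram]
    rcases j with _ | _ | k <;> simp [slq, swu, rename_X]
  have hd : ∀ j, pderiv (swu κ j) (rename (swu κ) f) = rename (swu κ) (pderiv j f) := fun j =>
    pderiv_rename (swu_inj κ) j f
  have hc : (v ∘ swu κ) ∘ swu κ = v := by
    funext o
    simp only [Function.comp_apply, swu_swu]
  intro j k
  obtain ⟨j', rfl⟩ : ∃ j', j = swu κ j' := ⟨swu κ j, (swu_swu j).symm⟩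
  obtain ⟨k', rfl⟩ : ∃ k', k = swu κ k' := ⟨swu κ k, (swu_swu k).symm⟩
  rw [hs, hs, hd, hd, ← map_mul, ← map_mul, ← map_sub, eval_rename, hc]
  exact h j' k'

/-- isolation at `e_w` -/
theorem isol_swu {d : ℕ} (f : MvPolynomial (Option (Option κ)) ℂ) (hf : f.IsHomogeneous d)
    (hmul : mulAt (affIdeal (rename (swu κ) f) (gram κ) (some none)) 0 ≠ 0) :
    ∃ (g : MvPolynomial (Option (Option κ)) ℂ) (e : ℕ), g.IsHomogeneous e ∧
      eval (vec 0 1 0) g ≠ 0 ∧ ∀ v, IsEig f (gram κ) v → eval v g ≠ 0 → ∃ c : ℂ, v = c • (vec 0 1 0) := by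
  obtain ⟨g, e, hg, hg0, hiso⟩ := exists_isolating (rename (swu κ) f) hf.rename_isHomogeneous (gram κ) (some none)
    (by intro j; rcases j with _ | _ | k <;> simp [gram]) 0 hmul
  have hv : (fun o : Option (Option κ) => o.elim (1 : ℂ) (0 : Option κ → ℂ)) = vec 0 1 0 ∘ swu κ := by
    funext o
    rcases o with _ | _ | k <;> rfl
  refine ⟨rename (swu κ) g, e, hg.rename_isHomogeneous, ?_, ?_⟩
  · rw [eval_rename, ← hv]
    exact hg0
  · intro v hve hvg
    rw [eval_rename] at hvg
    obtain ⟨c, hc⟩ := hiso _ (isEig_swu hve) hvg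
    refine ⟨c, ?_⟩
    rw [hv] at hc
    funext o
    have h1 := congrFun hc (swu κ o)
    simp only [Function.comp_apply, swu_swu, Pi.smul_apply] at h1
    exact h1

end swap

variable {ι : Type}

/-- `D` at `w = 1` -/
def wD (ι : Type) (q : ℕ) (τ ρ : ℂ) : MvPolynomial (Option (Option (Option ι))) ℂ :=
  C τ * X (some (some none)) ^ (q - 2) + C (((q : ℂ) - 1) * ρ)

/-- the eigenvalue in the chart `w = 1`; `none = u` -/
def wLam (ι : Type) (q : ℕ) (τ ρ β : ℂ) : MvPolynomial (Option (Option (Option ι))) ℂ :=
  X (some none) * (C ((q : ℂ) - 1) * (X none ^ (q - 2) * X (some none)) + C β * wD ι q τ ρ)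

/-- the chart equations of the core form at `w = 1` -/
def wSys (q : ℕ) (τ ρ δ β : ℂ) (P : MvPolynomial (Option ι) ℂ) :
    Option (Option (Option ι)) → MvPolynomial (Option (Option (Option ι))) ℂ
  | none => X (some (some none)) ^ 2 * wD ι q τ ρ +
      C β * (X none * X (some none) * (wD ι q τ ρ + C (((q : ℂ) - 1) * ((q : ℂ) - 2) * ρ))) +
      C (δ * ((q : ℂ) - 1)) * X (some none) ^ 2 - X none * wLam ι q τ ρ β
  | some none => X (some none) * (2 * X none ^ (q - 1) + C (2 * δ)) + C β * (X none * wD ι q τ ρ) -
      X (some none) * wLam ι q τ ρ β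
  | some (some none) => rename (fun j => some (some j)) (pderiv none P) +
      C ((q : ℂ) * τ) * X (some (some none)) ^ (q - 1) + C (2 * ρ) * X (some (some none)) +
      C (β * (((q : ℂ) - 2) * τ)) * (X none * X (some none) * X (some (some none)) ^ (q - 3)) -
      X (some (some none)) * wLam ι q τ ρ β
  | some (some (some i)) => rename (fun j => some (some j)) (pderiv (some i) P) -
      X (some (some (some i))) * wLam ι q τ ρ β

variable [Fintype ι] [DecidableEq ι]

/-- the chart ideal of the exchanged form -/
theorem swF_aff {q : ℕ} (hq : 3 ≤ q) (τ ρ δ β : ℂ) (P : MvPolynomial (Option ι) ℂ) :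
    affIdeal (rename (swu (Option (Option ι))) (coreF q τ ρ δ β P)) (gram (Option (Option ι))) (some none) =
      Ideal.span (Set.range (wSys q τ ρ δ β P)) := by
  have hd : ∀ j, pderiv (swu (Option (Option ι)) j) (rename (swu (Option (Option ι))) (coreF q τ ρ δ β P)) =
      rename (swu (Option (Option ι))) (pderiv j (coreF q τ ρ δ β P)) := fun j =>
    pderiv_rename (swu_inj (Option (Option ι))) j _
  have hu : pderiv (some none) (rename (swu (Option (Option ι))) (coreF q τ ρ δ β P)) =
      rename (swu (Option (Option ι))) (pderiv none (coreF q τ ρ δ β P)) := hd none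
  have hw : pderiv none (rename (swu (Option (Option ι))) (coreF q τ ρ δ β P)) =
      rename (swu (Option (Option ι))) (pderiv (some none) (coreF q τ ρ δ β P)) := hd (some none)
  have hx : ∀ k, pderiv (some (some k)) (rename (swu (Option (Option ι))) (coreF q τ ρ δ β P)) =
      rename (swu (Option (Option ι))) (pderiv (some (some k)) (coreF q τ ρ δ β P)) := fun k => hd (some (some k))
  have hren : ∀ g : MvPolynomial (Option ι) ℂ, rename (swu (Option (Option ι)))
      (rename (fun j => some (some (some j))) g : MvPolynomial (Option (Option (Option (Option ι)))) ℂ) =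
      rename (fun j => some (some (some j))) g := by
    intro g
    rw [rename_rename]
    rfl
  have hrC : ∀ c : ℂ, rename (swu (Option (Option ι)))
      (C c : MvPolynomial (Option (Option (Option (Option ι)))) ℂ) = C c := fun c => rename_C _ _
  have hn : ((q - 1 : ℕ) : MvPolynomial (Option (Option (Option ι))) ℂ) = C ((q : ℂ) - 1) := by
    rw [← map_natCast (C : ℂ →+* MvPolynomial (Option (Option (Option ι))) ℂ), Nat.cast_sub (by omega)]
    norm_num
  have hDD : dehom (rename (swu (Option (Option ι)))
      (DD0 q τ ρ (X (some (some (some none)))) (X (some none)) :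
        MvPolynomial (Option (Option (Option (Option ι)))) ℂ)) = wD ι q τ ρ := by
    unfold DD0 wD
    simp only [map_add, map_mul, map_pow, rename_X, hrC, swu, dehom_X_some, dehom_X_none, dehom_C', one_pow, mul_one]
  have hlam : dehom (pderiv (some none) (rename (swu (Option (Option ι))) (coreF q τ ρ δ β P))) =
      wLam ι q τ ρ β := by
    rw [hu, pd_u]
    unfold wLam
    simp only [map_add, map_mul, map_pow, rename_X, hrC, swu, dehom_X_some, dehom_X_none, dehom_C', one_mul,
      map_natCast, hn, hDD]
    ring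
  have hgen : ∀ j : Option (Option (Option (Option ι))),
      dehom (pderiv j (rename (swu (Option (Option ι))) (coreF q τ ρ δ β P)) -
        sl (gram (Option (Option ι))) j *
          pderiv (some none) (rename (swu (Option (Option ι))) (coreF q τ ρ δ β P))) =
      match j with
      | none => wSys q τ ρ δ β P none
      | some none => 0
      | some (some k) => wSys q τ ρ δ β P (some k) := by
    intro j
    rw [sl_gram, map_sub dehom, map_mul dehom, hlam]
    rcases j with _ | _ | _ | _ | i
    · rw [hw, pd_w hq]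
      simp only [slq, wSys, map_add, map_mul, map_pow, rename_X, hrC, swu, dehom_X_some, dehom_X_none, dehom_C',
        hDD, one_pow, mul_one, one_mul]
    · simp only [slq, dehom_X_none, hlam]
      ring
    · rw [hx, pd_y]
      simp only [slq, wSys, map_add, map_mul, map_pow, rename_X, hrC, swu, dehom_X_some, dehom_X_none, dehom_C',
        hDD, one_pow, mul_one, map_ofNat, one_mul]
    · rw [hx, pd_b hq]
      simp only [slq, wSys, map_add, map_mul, map_pow, rename_X, hrC, swu, dehom_X_some, dehom_X_none, dehom_C',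
        hren, dehom_ren3, one_mul, mul_one, one_pow]
    · rw [hx, pd_z]
      simp only [slq, wSys, dehom_X_some, hren, dehom_ren3]
  unfold affIdeal
  apply le_antisymm
  · rw [Ideal.span_le]
    rintro _ ⟨j, rfl⟩
    simp only []
    rw [hgen]
    rcases j with _ | _ | k
    · exact Ideal.subset_span ⟨none, rfl⟩
    · exact Ideal.zero_mem _
    · exact Ideal.subset_span ⟨some k, rfl⟩
  · rw [Ideal.span_le]
    rintro _ ⟨o, rfl⟩
    rcases o with _ | k
    · have := hgen none
      simp only [] at this
      rw [← this]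
      exact Ideal.subset_span ⟨none, rfl⟩
    · have := hgen (some (some k))
      simp only [] at this
      rw [← this]
      exact Ideal.subset_span ⟨some (some k), rfl⟩

/-- weights at `e_w` -/
def wwt (ι : Type) (p : ℕ) : Option (Option (Option ι)) → ℕ
  | none => p + 3
  | some none => p + 3
  | some (some none) => p + 4
  | some (some (some _)) => 1

/-- degrees at `e_w` -/
def wdg (ι : Type) (p : ℕ) : Option (Option (Option ι)) → ℕ
  | none => (p + 3) + (p + 3)
  | some none => p + 3
  | some (some none) => p + 4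
  | some (some (some _)) => p + 4

/-- initial forms at `e_w` -/
def wIn (p : ℕ) (ρ δ β : ℂ) (P : MvPolynomial (Option ι) ℂ) :
    Option (Option (Option ι)) → MvPolynomial (Option (Option (Option ι))) ℂ
  | none => C (β * (((p : ℂ) + 3) * ((p : ℂ) + 2) * ρ)) * (X none * X (some none)) +
      C (δ * ((p : ℂ) + 3)) * (X (some none) * X (some none))
  | some none => C (2 * δ) * X (some none) + C (β * (((p : ℂ) + 3) * ρ)) * X none
  | some (some none) => aeval (p0X ι) (pderiv none P) + C (2 * ρ) * X (some (some none))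
  | some (some (some i)) => aeval (p0X ι) (pderiv (some i) P) -
      X (some (some (some i))) * (C (β * (((p : ℂ) + 3) * ρ)) * X (some none))

theorem wSys_pos {p : ℕ} {τ ρ δ β : ℂ} (hρ : ρ ≠ 0) (hβ : β ≠ 0) (hδ : δ ≠ 0)
    {P : MvPolynomial (Option ι) ℂ} (hP : P.IsHomogeneous (p + 4 + 1))
    (hz : ∀ z : ι → ℂ, (∀ i, eval (fun o : Option ι => o.elim 0 z) (pderiv (some i) P) = 0) → z = 0) :
    mulAt (Ideal.span (Set.range (wSys (p + 4) τ ρ δ β P))) 0 ≠ 0 := by
  have e1 : p + 4 - 1 = p + 3 := by omega
  have e2 : p + 4 - 2 = p + 2 := by omega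
  have e3 : p + 4 - 3 = p + 1 := by omega
  have hq : ((p + 4 : ℕ) : ℂ) = (p : ℂ) + 4 := by push_cast; ring
  have hqn : (p : ℂ) + 3 ≠ 0 := by
    have : ((p + 3 : ℕ) : ℂ) ≠ 0 := Nat.cast_ne_zero.mpr (by omega)
    push_cast at this
    exact this
  have hqn1 : (p : ℂ) + 1 ≠ 0 := by
    have : ((p + 1 : ℕ) : ℂ) ≠ 0 := Nat.cast_ne_zero.mpr (by omega)
    push_cast at this
    exact this
  have hd : ∀ j : Option ι, (pderiv j P).IsHomogeneous (p + 4) := fun j => hP.pderiv
  have w0 : wh (wwt ι p) (p + 3) (X none) := wh_X _ none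
  have wy : wh (wwt ι p) (p + 3) (X (some none)) := wh_X _ (some none)
  have wb : wh (wwt ι p) (p + 4) (X (some (some none))) := wh_X _ (some (some none))
  have wz : ∀ i, wh (wwt ι p) 1 (X (some (some (some i)))) := fun i => wh_X _ (some (some (some i)))
  have hw0 : ∀ o, 0 < wwt ι p o := by
    intro o; rcases o with _ | _ | _ | i <;> simp [wwt]
  have hd0 : ∀ o, 0 < wdg ι p o := by
    intro o; rcases o with _ | _ | _ | i <;> simp [wdg]
  have hwg : ∀ o, wh (wwt ι p) (wdg ι p o) (wIn p ρ δ β P o) := by
    intro o; rcases o with _ | _ | _ | i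
    · exact wh_add (wh_C_mul _ (wh_mul w0 wy)) (wh_C_mul _ (wh_mul wy wy))
    · exact wh_add (wh_C_mul _ wy) (wh_C_mul _ w0)
    · refine wh_add ?_ (wh_C_mul _ wb)
      have h := wh_p0q (w := wwt ι p) (k := 1) (fun _ => rfl) (hd none)
      rw [one_mul] at h
      exact h
    · refine wh_sub ?_ ?_
      · have h := wh_p0q (w := wwt ι p) (k := 1) (fun _ => rfl) (hd (some i))
        rw [one_mul] at h
        exact h
      · have h := wh_mul (wz i) (wh_C_mul (β * (((p : ℂ) + 3) * ρ)) wy)
        rw [show 1 + (p + 3) = p + 4 by ring] at h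
        exact h
  have hg0 : ∀ x : Option (Option (Option ι)) → ℂ, (∀ o, eval x (wIn p ρ δ β P o) = 0) → x = 0 := by
    intro x hx
    have hn := hx none
    have hy := hx (some none)
    have hb := hx (some (some none))
    simp only [wIn, map_add, map_sub, map_mul, map_pow, eval_X, eval_C] at hn hy hb
    have h1 : (δ * ((p : ℂ) + 1)) * (x (some none)) ^ 2 = 0 := by
      linear_combination -hn + ((p : ℂ) + 2) * x (some none) * hy
    have h2 : x (some none) = 0 := eq_zero_of_pow_eq_zero ((mul_eq_zero.mp h1).resolve_left (mul_ne_zero hδ hqn1))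
    have h3 : x none = 0 := by
      rw [h2, mul_zero, zero_add] at hy
      exact (mul_eq_zero.mp hy).resolve_left (mul_ne_zero hβ (mul_ne_zero hqn hρ))
    have h4 : (fun i => x (some (some (some i)))) = 0 := by
      apply hz
      intro i
      have h5 := hx (some (some (some i)))
      simp only [wIn, map_sub, map_mul, eval_X, eval_C, h2, mul_zero, sub_zero] at h5
      rw [eval_p0X] at h5
      exact h5
    have h5 : x (some (some none)) = 0 := by
      rw [eval_p0X] at hb
      have h6 : (fun o : Option ι => o.elim (0 : ℂ) fun i => x (some (some (some i)))) = 0 := by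
        funext o
        rcases o with _ | i
        · rfl
        · exact congrFun h4 i
      rw [h6, eval_zero_of_hom (by omega) (hd none), zero_add] at hb
      exact (mul_eq_zero.mp hb).resolve_left (mul_ne_zero two_ne_zero hρ)
    funext o
    rcases o with _ | _ | _ | i
    · exact h3
    · exact h2
    · exact h5
    · exact congrFun h4 i
  -- `D`, `λ`
  have hD : Lead (wwt ι p) 0 (wD ι (p + 4) τ ρ) (C (((p : ℂ) + 3) * ρ)) := by
    have h1 : wD ι (p + 4) τ ρ = C (((p : ℂ) + 3) * ρ) + C τ * X (some (some none)) ^ (p + 2) := by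
      unfold wD
      rw [e2, hq]
      have : (p : ℂ) + 4 - 1 = (p : ℂ) + 3 := by ring
      rw [this]
      ring
    rw [h1]
    refine (Lead.self (wlo_triv _)).add_hi (wlo_C_mul _ ?_)
    exact wlo_mono (Nat.one_le_iff_ne_zero.mpr (by positivity)) (wlo_pow wb.wlo (p + 2))
  have hL : Lead (wwt ι p) (p + 3) (wLam ι (p + 4) τ ρ β) (C (β * (((p : ℂ) + 3) * ρ)) * X (some none)) := by
    have h1 : wLam ι (p + 4) τ ρ β = C β * (wD ι (p + 4) τ ρ * X (some none)) +
        C (((p + 4 : ℕ) : ℂ) - 1) * (X none ^ (p + 2) * X (some none) ^ 2) := by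
      unfold wLam
      rw [e2]
      ring
    have h2 : (C (β * (((p : ℂ) + 3) * ρ)) * X (some none) : MvPolynomial (Option (Option (Option ι))) ℂ) =
        C β * (C (((p : ℂ) + 3) * ρ) * X (some none)) := by
      rw [C_mul]
      ring
    rw [h1, h2]
    refine Lead.add_hi ?_ (wlo_C_mul _ ?_)
    · exact ((hD.mul (Lead.self wy.wlo)).C_mul β).cast (by ring)
    · refine wlo_mono ?_ (wlo_mul (wlo_pow w0.wlo (p + 2)) (wlo_pow wy.wlo 2))
      nlinarith
  have hlead : ∀ o, Lead (wwt ι p) (wdg ι p o) (wSys (p + 4) τ ρ δ β P o) (wIn p ρ δ β P o) := by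
    intro o; rcases o with _ | _ | _ | i
    · have h1 : wSys (p + 4) τ ρ δ β P none =
          (C (β * (((p : ℂ) + 3) * ((p : ℂ) + 2) * ρ)) * (X none * X (some none)) +
            C (δ * ((p : ℂ) + 3)) * (X (some none) * X (some none))) +
          (X (some (some none)) ^ 2 * wD ι (p + 4) τ ρ -
            C ((p : ℂ) + 3) * (X none ^ (p + 3) * X (some none) ^ 2)) := by
        simp only [wSys, wLam, e2, hq]
        have c1 : (C (((p : ℂ) + 4 - 1) * ((p : ℂ) + 4 - 2) * ρ) : MvPolynomial (Option (Option (Option ι))) ℂ) =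
            C (((p : ℂ) + 3) * ((p : ℂ) + 2) * ρ) := by
          congr 1
          ring
        have c2 : (p : ℂ) + 4 - 1 = (p : ℂ) + 3 := by ring
        rw [c1, c2, C_mul (a := β)]
        ring
      rw [h1]
      refine (Lead.self (hwg none).wlo).add_hi (wlo_sub ?_ (wlo_C_mul _ ?_))
      · refine wlo_mono ?_ (wlo_mul (wlo_pow wb.wlo 2) hD.lof)
        change (p + 3) + (p + 3) + 1 ≤ (p + 4) * 2 + 0
        omega
      · refine wlo_mono ?_ (wlo_mul (wlo_pow w0.wlo (p + 3)) (wlo_pow wy.wlo 2))
        change (p + 3) + (p + 3) + 1 ≤ (p + 3) * (p + 3) + (p + 3) * 2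
        nlinarith
    · have h1 : wSys (p + 4) τ ρ δ β P (some none) = (C (2 * δ) * X (some none) +
          C β * (wD ι (p + 4) τ ρ * X none)) +
          (C 2 * (X none ^ (p + 3) * X (some none)) - X (some none) * wLam ι (p + 4) τ ρ β) := by
        simp only [wSys, e1, c_two]
        ring
      have h2 : wIn p ρ δ β P (some none) = C (2 * δ) * X (some none) +
          C β * (C (((p : ℂ) + 3) * ρ) * X none) := by
        simp only [wIn]
        rw [C_mul (a := β)]
        ring
      rw [h1, h2]
      refine Lead.add_hi (((Lead.self wy.wlo).C_mul _).add ?_) (wlo_sub (wlo_C_mul _ ?_) ?_)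
      · exact ((hD.mul (Lead.self w0.wlo)).C_mul β).cast (by simp [wdg])
      · refine wlo_mono ?_ (wlo_mul (wlo_pow w0.wlo (p + 3)) wy.wlo)
        change p + 3 + 1 ≤ (p + 3) * (p + 3) + (p + 3)
        nlinarith
      · refine wlo_mono ?_ (wlo_mul wy.wlo hL.lof)
        change p + 3 + 1 ≤ (p + 3) + (p + 3)
        omega
    · have h1 : wSys (p + 4) τ ρ δ β P (some (some none)) =
          (rename (fun j => some (some j)) (pderiv none P) + C (2 * ρ) * X (some (some none))) +
          (C (((p + 4 : ℕ) : ℂ) * τ) * X (some (some none)) ^ (p + 3) +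
            C (β * ((((p + 4 : ℕ) : ℂ) - 2) * τ)) * (X none * X (some none) * X (some (some none)) ^ (p + 1)) -
            X (some (some none)) * wLam ι (p + 4) τ ρ β) := by
        simp only [wSys, e1, e3]
        ring
      rw [h1]
      refine Lead.add_hi (Lead.add ?_ ((Lead.self wb.wlo).C_mul _)) (wlo_sub (wlo_add (wlo_C_mul _ ?_) (wlo_C_mul _ ?_)) ?_)
      · exact (lead_excq (w := wwt ι p) (k := 1) (by change 1 < p + 4; omega) (fun _ => rfl) (hd none)).cast
          (by simp [wdg])
      · refine wlo_mono ?_ (wlo_pow wb.wlo (p + 3))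
        change p + 4 + 1 ≤ (p + 4) * (p + 3)
        nlinarith
      · refine wlo_mono ?_ (wlo_mul (wlo_mul w0.wlo wy.wlo) (wlo_pow wb.wlo (p + 1)))
        change p + 4 + 1 ≤ (p + 3) + (p + 3) + (p + 4) * (p + 1)
        nlinarith
      · refine wlo_mono ?_ (wlo_mul wb.wlo hL.lof)
        change p + 4 + 1 ≤ (p + 4) + (p + 3)
        omega
    · change Lead (wwt ι p) (p + 4) (rename (fun j => some (some j)) (pderiv (some i) P) -
        X (some (some (some i))) * wLam ι (p + 4) τ ρ β) (aeval (p0X ι) (pderiv (some i) P) -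
        X (some (some (some i))) * (C (β * (((p : ℂ) + 3) * ρ)) * X (some none)))
      refine Lead.sub ?_ ?_
      · exact (lead_excq (w := wwt ι p) (k := 1) (by change 1 < p + 4; omega) (fun _ => rfl) (hd (some i))).cast
          (by ring)
      · exact ((Lead.self (wz i).wlo).mul hL).cast (by ring)
  exact wBez_pos hw0 hd0 hwg hg0 hlead

end

end Core

end EY
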