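import Pool.Agent.helper49.EY.CEw

set_option autoImplicit false
set_option linter.unusedSectionVars false
set_option linter.unusedSimpArgs false

/-!
# EY-CFin: the core form has finitely many eigenvectors
-/

namespace EY

namespace Core

open MvPolynomial EY.X21

noncomputable section

lemma hom_cast {σ : Type*} {f : MvPolynomial σ ℂ} {n m : ℕ} (h : f.IsHomogeneous n) (e : n = m) :
    f.IsHomogeneous m := e ▸ h

variable {ι : Type}

/-- value of `D`, `q = p + 4` -/
def vD (p : ℕ) (τ ρ b w : ℂ) : ℂ := τ * b ^ (p + 2) + ((p : ℂ) + 3) * ρ * w ^ (p + 2)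

lemma DD0_hom {σ : Type} (p : ℕ) (τ ρ : ℂ) (k l : σ) :
    (DD0 (p + 4) τ ρ (X k) (X l) : MvPolynomial σ ℂ).IsHomogeneous (p + 2) := by
  have e : p + 4 - 2 = p + 2 := by omega
  unfold DD0
  rw [e]
  refine IsHomogeneous.add ?_ ?_
  · exact hom_cast (((isHomogeneous_X ℂ k).pow (p + 2)).C_mul τ) (by ring)
  · exact hom_cast (((isHomogeneous_X ℂ l).pow (p + 2)).C_mul _) (by ring)

lemma eval_DD0 {σ : Type} (p : ℕ) (τ ρ : ℂ) (k l : σ) (v : σ → ℂ) :
    eval v (DD0 (p + 4) τ ρ (X k) (X l)) = vD p τ ρ (v k) (v l) := by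
  have e : p + 4 - 2 = p + 2 := by omega
  unfold DD0 vD
  rw [e]
  simp only [map_add, map_mul, map_pow, eval_X, eval_C]
  push_cast
  ring

theorem coreF_hom {p : ℕ} (τ ρ δ β : ℂ) {P : MvPolynomial (Option ι) ℂ} (hP : P.IsHomogeneous (p + 4 + 1)) :
    (coreF (p + 4) τ ρ δ β P).IsHomogeneous (p + 4 + 1) := by
  have e : p + 4 - 1 = p + 3 := by omega
  have hx : ∀ k : Option (Option (Option (Option ι))), (X k : MvPolynomial _ ℂ).IsHomogeneous 1 :=
    fun k => isHomogeneous_X ℂ k
  unfold coreF
  rw [e]
  refine IsHomogeneous.add (IsHomogeneous.add (IsHomogeneous.add (IsHomogeneous.add (IsHomogeneous.add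
    hP.rename_isHomogeneous (IsHomogeneous.C_mul ?_ _)) (IsHomogeneous.C_mul ?_ _)) ?_)
    (IsHomogeneous.C_mul ?_ _)) (IsHomogeneous.C_mul ?_ _)
  · exact hom_cast ((hx _).mul ((hx _).pow _)) (by ring)
  · exact hom_cast (((hx _).pow _).mul ((hx _).pow _)) (by ring)
  · exact hom_cast (((hx _).pow _).mul ((hx _).pow _)) (by ring)
  · exact hom_cast (((hx _).pow _).mul ((hx _).pow _)) (by ring)
  · exact hom_cast ((((hx _).mul (hx _)).mul (hx _)).mul (DD0_hom p τ ρ _ _)) (by ring)

section ev

variable (p : ℕ) (τ ρ δ β : ℂ) (P : MvPolynomial (Option ι) ℂ) (v : Option (Option (Option (Option ι))) → ℂ)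

theorem eval_ren3 (ψ : MvPolynomial (Option ι) ℂ) :
    eval v (rename (fun j => some (some (some j))) ψ) = eval (fun j => v (some (some (some j)))) ψ := by
  rw [eval_rename]
  rfl

theorem ev_u : eval v (pderiv none (coreF (p + 4) τ ρ δ β P)) =
    v (some (some none)) * (((p : ℂ) + 3) * v none ^ (p + 2) * v (some (some none)) +
      β * (v (some none) * vD p τ ρ (v (some (some (some none)))) (v (some none)))) := by
  have e1 : p + 4 - 1 = p + 3 := by omega
  have e2 : p + 4 - 2 = p + 2 := by omega
  rw [pd_u]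
  simp only [map_add, map_mul, map_pow, eval_X, eval_C, eval_DD0, e1, e2, map_natCast]
  push_cast
  ring

theorem ev_w : eval v (pderiv (some none) (coreF (p + 4) τ ρ δ β P)) =
    v (some (some (some none))) ^ 2 * vD p τ ρ (v (some (some (some none)))) (v (some none)) +
      β * (v none * v (some (some none)) * (vD p τ ρ (v (some (some (some none)))) (v (some none)) +
        ((p : ℂ) + 3) * ((p : ℂ) + 2) * ρ * v (some none) ^ (p + 2))) +
      δ * ((p : ℂ) + 3) * (v (some none) ^ (p + 2) * v (some (some none)) ^ 2) := by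
  have e2 : p + 4 - 2 = p + 2 := by omega
  rw [pd_w (by omega)]
  simp only [map_add, map_mul, map_pow, eval_X, eval_C, eval_DD0, e2]
  push_cast
  ring

theorem ev_y : eval v (pderiv (some (some none)) (coreF (p + 4) τ ρ δ β P)) =
    v (some (some none)) * (2 * v none ^ (p + 3) + 2 * δ * v (some none) ^ (p + 3)) +
      β * (v none * v (some none) * vD p τ ρ (v (some (some (some none)))) (v (some none))) := by
  have e1 : p + 4 - 1 = p + 3 := by omega
  rw [pd_y]
  simp only [map_add, map_mul, map_pow, eval_X, eval_C, eval_DD0, e1, map_ofNat]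

theorem ev_b : eval v (pderiv (some (some (some none))) (coreF (p + 4) τ ρ δ β P)) =
    eval (fun j => v (some (some (some j)))) (pderiv none P) +
      ((p : ℂ) + 4) * τ * (v (some none) * v (some (some (some none))) ^ (p + 3)) +
      2 * ρ * (v (some none) ^ (p + 3) * v (some (some (some none)))) +
      β * (((p : ℂ) + 2) * τ) *
        (v none * v (some (some none)) * v (some none) * v (some (some (some none))) ^ (p + 1)) := by
  have e1 : p + 4 - 1 = p + 3 := by omega
  have e3 : p + 4 - 3 = p + 1 := by omega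
  rw [pd_b (by omega)]
  simp only [map_add, map_mul, map_pow, eval_X, eval_C, eval_ren3, e1, e3]
  push_cast
  ring

theorem ev_z (i : ι) : eval v (pderiv (some (some (some (some i)))) (coreF (p + 4) τ ρ δ β P)) =
    eval (fun j => v (some (some (some j)))) (pderiv (some i) P) := by
  rw [pd_z, eval_ren3]

end ev

section base

variable [Fintype ι] [DecidableEq ι]
variable {p : ℕ} {τ ρ δ β : ℂ} {P : MvPolynomial (Option ι) ℂ}

/-- the eigenvectors with `y = 0` -/
theorem base_cases (hP : P.IsHomogeneous (p + 4 + 1))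
    (hns : ∀ x : Option ι → ℂ, x none = 0 → (∀ i, eval x (pderiv (some i) P) = 0) → x = 0)
    (hτ : τ ≠ 0) (hβ : β ≠ 0)
    (hD : ∀ p' : Option (Option ι) → ℂ, vD p τ ρ (p' (some none)) (p' none) = 0 →
      eval (fun j => p' (some j)) (pderiv none P) + ((p : ℂ) + 4) * τ * (p' none * p' (some none) ^ (p + 3)) +
        2 * ρ * (p' none ^ (p + 3) * p' (some none)) = 0 →
      (∀ i, eval (fun j => p' (some j)) (pderiv (some i) P) = 0) → p' = 0)
    {v : Option (Option (Option (Option ι))) → ℂ} (hv : v ≠ 0)
    (he : IsEig (coreF (p + 4) τ ρ δ β P) (gram (Option (Option ι))) v) (hy : v (some (some none)) = 0) :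
    (∃ c : ℂ, v = c • vec 0 1 0) ∨ (∃ c : ℂ, v = c • vec 1 0 0) ∨
      (v (some none) = 0 ∧ (fun j => v (some (some (some j)))) ≠ 0 ∧ ∃ lam : ℂ, lam ≠ 0 ∧
        (∀ j, eval (fun j => v (some (some (some j)))) (pderiv j P) = lam * v (some (some (some j)))) ∧
        τ * v (some (some (some none))) ^ (p + 4) = lam * v none) := by
  obtain ⟨lam, hlam⟩ := he.exists_lam hv
  have h1 := hlam none
  have h2 := hlam (some none)
  have h3 := hlam (some (some none))
  have h4 := hlam (some (some (some none)))
  have h5 := fun i => hlam (some (some (some (some i))))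
  rw [ev_u, hy] at h1
  rw [ev_w, hy] at h2
  rw [ev_y, hy] at h3
  rw [ev_b, hy] at h4
  simp only [ev_z] at h5
  simp only [slq, eval_X] at h1 h2 h3 h4 h5
  rw [hy] at h3
  set u := v none with hu
  set w := v (some none) with hw
  set b := v (some (some (some none))) with hb
  by_cases hw0 : w = 0
  · -- `w = 0`
    have hDv : vD p τ ρ b w = τ * b ^ (p + 2) := by
      unfold vD
      rw [hw0, zero_pow (by omega), mul_zero, add_zero]
    rw [hDv, hw0] at h2
    rw [hw0] at h4
    have h2' : τ * b ^ (p + 4) = lam * u := by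
      rw [← h2]
      ring
    have h4' : eval (fun j => v (some (some (some j)))) (pderiv none P) = lam * b := by
      rw [← h4, zero_pow (by omega)]
      ring
    by_cases hx : (fun j => v (some (some (some j)))) = 0
    · right
      left
      refine ⟨u, ?_⟩
      funext o
      rcases o with _ | _ | _ | j
      · simp [vec, hu]
      · simp [vec, ← hw, hw0]
      · simp [vec, hy]
      · have := congrFun hx j
        simpa [vec] using this
    · right
      right
      refine ⟨hw0, hx, lam, ?_, ?_, h2'⟩
      · intro h0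
        rw [h0, zero_mul] at h2'
        have hb0 : b = 0 := eq_zero_of_pow_eq_zero ((mul_eq_zero.mp h2').resolve_left hτ)
        apply hx
        apply hns _ hb0
        intro i
        rw [h5 i, h0, zero_mul]
      · intro j
        rcases j with _ | i
        · exact h4'
        · exact h5 i
  · -- `w ≠ 0`
    left
    have hl0 : lam = 0 := by
      have : lam * w = 0 := by
        rw [← h1]
        ring
      exact (mul_eq_zero.mp this).resolve_right hw0
    rw [hl0] at h2 h3 h4 h5
    have h2' : b ^ 2 * vD p τ ρ b w = 0 := by linear_combination h2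
    have h3' : (β * (u * w)) * vD p τ ρ b w = 0 := by linear_combination h3
    have h4' : eval (fun j => v (some (some (some j)))) (pderiv none P) + ((p : ℂ) + 4) * τ * (w * b ^ (p + 3)) +
        2 * ρ * (w ^ (p + 3) * b) = 0 := by linear_combination h4
    have hD0 : vD p τ ρ b w ≠ 0 := by
      intro h0
      have h6 := hD (fun o : Option (Option ι) => o.elim w fun j => v (some (some (some j)))) h0 h4' (by
        intro i
        exact (h5 i).trans (zero_mul _))
      exact hw0 (congrFun h6 none)
    have hb0 : b = 0 := eq_zero_of_pow_eq_zero ((mul_eq_zero.mp h2').resolve_right hD0)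
    have hu0 : u = 0 := by
      have h6 := (mul_eq_zero.mp h3').resolve_right hD0
      have h7 := (mul_eq_zero.mp h6).resolve_left hβ
      exact (mul_eq_zero.mp h7).resolve_right hw0
    have hx := hns (fun j => v (some (some (some j)))) hb0 (fun i => (h5 i).trans (zero_mul _))
    refine ⟨w, ?_⟩
    funext o
    rcases o with _ | _ | _ | j
    · simp [vec, ← hu, hu0]
    · simp [vec, hw]
    · simp [vec, hy]
    · have := congrFun hx j
      simpa [vec] using this

/-- the polynomials `g_j` -/
def gj (p : ℕ) (τ ρ δ β : ℂ) (P : MvPolynomial (Option ι) ℂ) (j : Option ι) :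
    MvPolynomial (Option (Option (Option (Option ι)))) ℂ :=
  (pderiv (some (some (some j))) (coreF (p + 4) τ ρ δ β P) -
      (C 2 * (X (some (some (some j))) * X none ^ (p + 3)) +
        C (2 * δ) * (X (some (some (some j))) * X (some none) ^ (p + 3)))) *
    (pderiv (some (some (some j))) (coreF (p + 4) τ ρ δ β P) -
      C β * (X (some (some (some j))) * X (some (some none)) *
        DD0 (p + 4) τ ρ (X (some (some (some none)))) (X (some none)))) -
    C (β * ((p : ℂ) + 3)) * (X (some (some (some j))) ^ 2 * X none ^ (p + 3) * X (some (some none)) *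
      DD0 (p + 4) τ ρ (X (some (some (some none)))) (X (some none)))

theorem gj_hom (hP : P.IsHomogeneous (p + 4 + 1)) (j : Option ι) :
    (gj p τ ρ δ β P j).IsHomogeneous (2 * (p + 4)) := by
  have hx : ∀ k : Option (Option (Option (Option ι))), (X k : MvPolynomial _ ℂ).IsHomogeneous 1 :=
    fun k => isHomogeneous_X ℂ k
  have hd : (pderiv (some (some (some j))) (coreF (p + 4) τ ρ δ β P)).IsHomogeneous (p + 4) :=
    (coreF_hom τ ρ δ β hP).pderiv
  unfold gj
  refine IsHomogeneous.sub (hom_cast (IsHomogeneous.mul (hd.sub (IsHomogeneous.add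
    (IsHomogeneous.C_mul ?_ _) (IsHomogeneous.C_mul ?_ _))) (hd.sub (IsHomogeneous.C_mul ?_ _))) (by ring))
    (IsHomogeneous.C_mul ?_ _)
  · exact hom_cast ((hx _).mul ((hx _).pow _)) (by ring)
  · exact hom_cast ((hx _).mul ((hx _).pow _)) (by ring)
  · exact hom_cast (((hx _).mul (hx _)).mul (DD0_hom p τ ρ _ _)) (by ring)
  · exact hom_cast (((((hx _).pow _).mul ((hx _).pow _)).mul (hx _)).mul (DD0_hom p τ ρ _ _)) (by ring)

theorem eval_gj (v : Option (Option (Option (Option ι))) → ℂ) (j : Option ι) :
    eval v (gj p τ ρ δ β P j) =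
      (eval v (pderiv (some (some (some j))) (coreF (p + 4) τ ρ δ β P)) -
        (2 * (v (some (some (some j))) * v none ^ (p + 3)) +
          2 * δ * (v (some (some (some j))) * v (some none) ^ (p + 3)))) *
      (eval v (pderiv (some (some (some j))) (coreF (p + 4) τ ρ δ β P)) -
        β * (v (some (some (some j))) * v (some (some none)) *
          vD p τ ρ (v (some (some (some none)))) (v (some none)))) -
      β * ((p : ℂ) + 3) * (v (some (some (some j))) ^ 2 * v none ^ (p + 3) * v (some (some none)) *
        vD p τ ρ (v (some (some (some none)))) (v (some none))) := by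
  unfold gj
  simp only [map_add, map_sub, map_mul, map_pow, eval_X, eval_C, eval_DD0]

/-- `y g_j = 0` at the eigenvectors -/
theorem y_gj {v : Option (Option (Option (Option ι))) → ℂ}
    (he : IsEig (coreF (p + 4) τ ρ δ β P) (gram (Option (Option ι))) v) (j : Option ι) :
    v (some (some none)) * eval v (gj p τ ρ δ β P j) = 0 := by
  have h1 := he (some (some (some j))) none
  have h2 := he (some (some (some j))) (some (some none))
  rw [sl_gram, sl_gram, map_sub, map_mul, map_mul] at h1 h2
  simp only [slq, eval_X] at h1 h2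
  rw [ev_u] at h1
  rw [ev_y] at h2
  rw [eval_gj]
  set L := eval v (pderiv (some (some (some j))) (coreF (p + 4) τ ρ δ β P)) with hL
  set u := v none with hu
  set w := v (some none) with hw
  set y := v (some (some none)) with hy
  set x := v (some (some (some j))) with hx
  set D := vD p τ ρ (v (some (some (some none)))) w with hD
  have e : u ^ (p + 3) = u * u ^ (p + 2) := by ring
  rw [e] at h2 ⊢
  linear_combination (-(L - β * (x * y * D))) * h2 + (-(β * x * u * D)) * h1

theorem base_finLines (hP : P.IsHomogeneous (p + 4 + 1)) (hfin : FinLines (IsEV P))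
    (hns : ∀ x : Option ι → ℂ, x none = 0 → (∀ i, eval x (pderiv (some i) P) = 0) → x = 0)
    (hτ : τ ≠ 0) (hβ : β ≠ 0)
    (hD : ∀ p' : Option (Option ι) → ℂ, vD p τ ρ (p' (some none)) (p' none) = 0 →
      eval (fun j => p' (some j)) (pderiv none P) + ((p : ℂ) + 4) * τ * (p' none * p' (some none) ^ (p + 3)) +
        2 * ρ * (p' none ^ (p + 3) * p' (some none)) = 0 →
      (∀ i, eval (fun j => p' (some j)) (pderiv (some i) P) = 0) → p' = 0) :
    FinLines (fun v => IsEig (coreF (p + 4) τ ρ δ β P) (gram (Option (Option ι))) v ∧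
      v (some (some none)) = 0) := by
  classical
  obtain ⟨T, hT, hT'⟩ := hfin
  let nu : (Option ι → ℂ) → ℂ := fun t =>
    if h : ∃ μ : ℂ, ∀ i, eval t (pderiv i P) = μ * t i then h.choose else 0
  refine ⟨insert (vec 0 1 0) (insert (vec 1 0 0) ((fun t : Option ι → ℂ =>
    vec (τ * t none ^ (p + 4) / nu t) 0 (fun o : Option (Option ι) => o.elim 0 t)) '' T)),
    ((hT.image _).insert _).insert _, ?_⟩
  rintro v ⟨he, hy⟩
  by_cases hv : v = 0
  · exact ⟨vec 0 1 0, Or.inl rfl, 0, by rw [hv, zero_smul]⟩
  rcases base_cases hP hns hτ hβ hD hv he hy with ⟨c, hc⟩ | ⟨c, hc⟩ | ⟨hw, hx, lam, hl0, hl, hbu⟩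
  · exact ⟨_, Or.inl rfl, c, hc⟩
  · exact ⟨_, Or.inr (Or.inl rfl), c, hc⟩
  · obtain ⟨t, ht, d, hd⟩ := hT' (fun j => v (some (some (some j)))) (fun i j => by rw [hl i, hl j]; ring)
    have hd0 : d ≠ 0 := by
      rintro rfl
      rw [zero_smul] at hd
      exact hx hd
    have hdj : ∀ j, v (some (some (some j))) = d * t j := by
      intro j
      have := congrFun hd j
      simpa using this
    have hsc : ∀ j, eval (fun j => v (some (some (some j)))) (pderiv j P) = d ^ (p + 4) * eval t (pderiv j P) := by
      intro j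
      have h5 : (pderiv j P).IsHomogeneous (p + 4) := hP.pderiv
      rw [hd]
      exact eval_smul_hom h5 d t
    have hdp : d ^ (p + 4) ≠ 0 := pow_ne_zero _ hd0
    have hex : ∃ μ : ℂ, ∀ i, eval t (pderiv i P) = μ * t i := by
      refine ⟨(d ^ (p + 4))⁻¹ * lam * d, fun i => ?_⟩
      have h5 := hsc i
      rw [hl i, hdj i] at h5
      have h6 : (d ^ (p + 4))⁻¹ * lam * d * t i = (d ^ (p + 4))⁻¹ * (lam * (d * t i)) := by ring
      rw [h6, h5, ← mul_assoc, inv_mul_cancel₀ hdp, one_mul]
    have hnu : ∀ i, eval t (pderiv i P) = nu t * t i := by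
      have h7 : nu t = hex.choose := dif_pos hex
      rw [h7]
      exact hex.choose_spec
    obtain ⟨i1, hi1⟩ : ∃ i, t i ≠ 0 := by
      by_contra hall
      push Not at hall
      apply hx
      rw [hd]
      funext i
      simp [hall i]
    have hlm : lam = d ^ (p + 3) * nu t := by
      have h7 := hsc i1
      rw [hl i1, hnu i1, hdj i1] at h7
      have h8 : d * t i1 ≠ 0 := mul_ne_zero hd0 hi1
      have h9 : (lam - d ^ (p + 3) * nu t) * (d * t i1) = 0 := by linear_combination h7
      exact sub_eq_zero.mp ((mul_eq_zero.mp h9).resolve_right h8)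
    have hnu0 : nu t ≠ 0 := by
      intro h7
      rw [h7, mul_zero] at hlm
      exact hl0 hlm
    refine ⟨_, Or.inr (Or.inr ⟨t, ht, rfl⟩), d, ?_⟩
    have hu : v none = d * (τ * t none ^ (p + 4) / nu t) := by
      rw [hdj none, hlm] at hbu
      have h8 : d ^ (p + 3) * (nu t * v none - d * (τ * t none ^ (p + 4))) = 0 := by linear_combination -hbu
      have h9 := (mul_eq_zero.mp h8).resolve_left (pow_ne_zero _ hd0)
      rw [mul_div_assoc', eq_div_iff hnu0]
      linear_combination h9
    funext o
    rcases o with _ | _ | _ | j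
    · simpa [vec] using hu
    · simp [vec, hw]
    · simp [vec, hy]
    · simpa [vec] using hdj j

/-- **finiteness** -/
theorem coreF_finLines (hP : P.IsHomogeneous (p + 4 + 1)) (hfin : FinLines (IsEV P))
    (hns : ∀ x : Option ι → ℂ, x none = 0 → (∀ i, eval x (pderiv (some i) P) = 0) → x = 0)
    (hτ : τ ≠ 0) (hρ : ρ ≠ 0) (hβ : β ≠ 0) (hδ : δ ≠ 0)
    (hD : ∀ p' : Option (Option ι) → ℂ, vD p τ ρ (p' (some none)) (p' none) = 0 →
      eval (fun j => p' (some j)) (pderiv none P) + ((p : ℂ) + 4) * τ * (p' none * p' (some none) ^ (p + 3)) +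
        2 * ρ * (p' none ^ (p + 3) * p' (some none)) = 0 →
      (∀ i, eval (fun j => p' (some j)) (pderiv (some i) P) = 0) → p' = 0)
    (hτ2 : ∀ (x : Option ι → ℂ) (lam : ℂ), x none ≠ 0 → (∀ j, eval x (pderiv j P) = lam * x j) →
      lam ^ (p + 4) ≠ 2 * (τ ^ (p + 3) * x none ^ ((p + 4) * (p + 3))))
    (hmul : mulAt (affIdeal (coreF (p + 4) τ ρ δ β P) (gram (Option (Option ι))) (some none)) 0 ≠ 0) :
    FinLines (IsEig (coreF (p + 4) τ ρ δ β P) (gram (Option (Option ι)))) := by
  classical
  set F := coreF (p + 4) τ ρ δ β P with hF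
  have hFh : F.IsHomogeneous (p + 4 + 1) := coreF_hom τ ρ δ β hP
  have hz : ∀ z : ι → ℂ, (∀ i, eval (fun o : Option ι => o.elim 0 z) (pderiv (some i) P) = 0) → z = 0 := by
    intro z hz
    have h1 := hns (fun o : Option ι => o.elim 0 z) rfl hz
    funext i
    exact congrFun h1 (some i)
  -- isolation
  obtain ⟨gu, eu, hgu, hgu0, hisou⟩ := exists_isolating F hFh (gram (Option (Option ι))) (some none)
    (by intro j; rcases j with _ | _ | k <;> simp [gram]) 0 hmul
  have hvu : (fun o : Option (Option (Option (Option ι))) =>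
      o.elim (1 : ℂ) (0 : Option (Option (Option ι)) → ℂ)) = vec 1 0 0 := by
    funext o
    rcases o with _ | _ | k <;> rfl
  rw [hvu] at hgu0 hisou
  obtain ⟨gw, ew, hgw, hgw0, hisow⟩ := isol_swu F hFh (by
    rw [hF, swF_aff (by omega)]
    exact wSys_pos hρ hβ hδ hP hz)
  set Sys : Set (MvPolynomial (Option (Option (Option (Option ι)))) ℂ) :=
    Set.range (fun jk : Option (Option (Option (Option ι))) × Option (Option (Option (Option ι))) =>
      sl (gram (Option (Option ι))) jk.1 * pderiv jk.2 F - sl (gram (Option (Option ι))) jk.2 * pderiv jk.1 F)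
    with hSys
  have hSysE : ∀ v, (∀ h ∈ Sys, eval v h = 0) ↔ IsEig F (gram (Option (Option ι))) v := by
    intro v
    constructor
    · intro h j k
      exact h _ ⟨(j, k), rfl⟩
    · rintro h _ ⟨⟨j, k⟩, rfl⟩
      exact h j k
  have hmain := finLines_of_cover Sys (by
      rintro _ ⟨⟨j, k⟩, rfl⟩
      exact ⟨_, minor_isHomogeneous _ hFh j k⟩)
    (insert gu (insert gw (Set.range (gj p τ ρ δ β P)))) (((Set.finite_range _).insert _).insert _) (by
      rintro _ (rfl | rfl | ⟨j, rfl⟩)
      · exact ⟨_, hgu⟩
      · exact ⟨_, hgw⟩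
      · exact ⟨_, gj_hom hP j⟩) (l := X (some (some none))) (d := 1) one_pos (isHomogeneous_X ℂ _) (by
      intro v hv hvG hvy
      rw [eval_X] at hvy
      by_contra hv0
      rcases base_cases hP hns hτ hβ hD hv0 ((hSysE v).mp hv) hvy with
        ⟨c, hc⟩ | ⟨c, hc⟩ | ⟨hw, hx, lam, hl0, hl, hbu⟩
      · have h1 := hvG gw (Or.inr (Or.inl rfl))
        rw [hc, eval_smul_hom hgw, mul_eq_zero] at h1
        rcases h1 with h1 | h1
        · rw [eq_zero_of_pow_eq_zero h1, zero_smul] at hc
          exact hv0 hc
        · exact hgw0 h1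
      · have h1 := hvG gu (Or.inl rfl)
        rw [hc, eval_smul_hom hgu, mul_eq_zero] at h1
        rcases h1 with h1 | h1
        · rw [eq_zero_of_pow_eq_zero h1, zero_smul] at hc
          exact hv0 hc
        · exact hgu0 h1
      · obtain ⟨j, hj⟩ : ∃ j : Option ι, v (some (some (some j))) ≠ 0 := by
          by_contra hall
          push Not at hall
          exact hx (funext hall)
        have h1 := hvG _ (Or.inr (Or.inr ⟨j, rfl⟩))
        have hL : eval v (pderiv (some (some (some j))) (coreF (p + 4) τ ρ δ β P)) =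
            lam * v (some (some (some j))) := by
          rcases j with _ | i
          · rw [ev_b, hl none, hw, hvy, zero_pow (by omega)]
            ring
          · rw [ev_z, hl (some i)]
        rw [eval_gj, hL, hvy, hw, zero_pow (by omega)] at h1
        have h2 : lam * v (some (some (some j))) ^ 2 * (lam - 2 * v none ^ (p + 3)) = 0 := by
          linear_combination h1
        have h3 := (mul_eq_zero.mp h2).resolve_left (mul_ne_zero hl0 (pow_ne_zero _ hj))
        have h4 : lam = 2 * v none ^ (p + 3) := sub_eq_zero.mp h3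
        by_cases hb : v (some (some (some none))) = 0
        · rw [hb, zero_pow (by omega), mul_zero] at hbu
          have h5 : v none = 0 := (mul_eq_zero.mp hbu.symm).resolve_left hl0
          rw [h5, zero_pow (by omega), mul_zero] at h4
          exact hl0 h4
        · refine hτ2 (fun j => v (some (some (some j)))) lam hb hl ?_
          have h5 : lam ^ (p + 4) = 2 * (lam * v none) ^ (p + 3) := by
            calc lam ^ (p + 4) = lam ^ (p + 3) * lam := pow_succ _ _
              _ = lam ^ (p + 3) * (2 * v none ^ (p + 3)) := by rw [← h4]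
              _ = 2 * (lam * v none) ^ (p + 3) := by rw [mul_pow]; ring
          rw [h5, ← hbu, mul_pow, ← pow_mul]) (by
      rintro _ (rfl | rfl | ⟨j, rfl⟩)
      · refine FinLines.single (vec 1 0 0) ?_
        rintro v ⟨hv, hvg⟩
        exact hisou v ((hSysE v).mp hv) hvg
      · refine FinLines.single (vec 0 1 0) ?_
        rintro v ⟨hv, hvg⟩
        exact hisow v ((hSysE v).mp hv) hvg
      · refine (base_finLines (δ := δ) hP hfin hns hτ hβ hD).mono ?_
        rintro v ⟨hv, hvg⟩
        refine ⟨(hSysE v).mp hv, ?_⟩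
        exact (mul_eq_zero.mp (y_gj ((hSysE v).mp hv) j)).resolve_right hvg)
  exact hmain.mono fun v hv => (hSysE v).mpr hv

end base

end

end Core

end EY
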