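import Pool.Agent.helper49.EY.CFin

set_option autoImplicit false
set_option linter.unusedSectionVars false
set_option linter.unusedSimpArgs false

/-!
# EY-CRz: the core form realises `(q² + 2 q - 3) q^K + M`, `q = 4, 5`
-/

namespace EY

namespace Core

open MvPolynomial EY.X21

noncomputable section

variable {ι : Type} [Fintype ι] [DecidableEq ι]

lemma finite_roots49 {n : ℕ} (hn : 0 < n) (r : ℂ) : {w : ℂ | w ^ n = r}.Finite := by
  classical
  refine (Finset.finite_toSet (Polynomial.nthRoots n r).toFinset).subset ?_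
  intro w hw
  rw [Finset.mem_coe, Multiset.mem_toFinset, Polynomial.mem_nthRoots hn]
  exact hw

/-- genericity of `τ` -/
theorem good_tau {p : ℕ} {P : MvPolynomial (Option ι) ℂ} (hP : P.IsHomogeneous (p + 4 + 1))
    (hfin : FinLines (IsEV P)) :
    {τ : ℂ | ¬ ∀ (x : Option ι → ℂ) (lam : ℂ), x none ≠ 0 → (∀ j, eval x (pderiv j P) = lam * x j) →
      lam ^ (p + 4) ≠ 2 * (τ ^ (p + 3) * x none ^ ((p + 4) * (p + 3)))}.Finite := by
  have hd : ∀ j : Option ι, (pderiv j P).IsHomogeneous (p + 4) := fun j => hP.pderiv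
  refine ((hfin.finite_chart none).biUnion fun x _ =>
    finite_roots49 (n := p + 3) (by omega) ((eval x (pderiv none P)) ^ (p + 4) / 2)).subset ?_
  intro τ hτ
  have hτ' : ¬ ∀ (x : Option ι → ℂ) (lam : ℂ), x none ≠ 0 → (∀ j, eval x (pderiv j P) = lam * x j) →
      lam ^ (p + 4) ≠ 2 * (τ ^ (p + 3) * x none ^ ((p + 4) * (p + 3))) := hτ
  push Not at hτ'
  obtain ⟨x, lam, hx0, hx, hl⟩ := hτ'
  have hbi : (x none)⁻¹ * x none = 1 := inv_mul_cancel₀ hx0
  refine Set.mem_biUnion (x := (x none)⁻¹ • x) ⟨?_, ?_⟩ ?_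
  · intro i j
    rw [eval_smul_hom (hd j), eval_smul_hom (hd i), hx i, hx j]
    simp only [Pi.smul_apply, smul_eq_mul]
    ring
  · exact hbi
  · change τ ^ (p + 3) = _
    rw [eval_smul_hom (hd none), hx none, mul_pow, mul_pow, hl]
    have h1 : x none ^ ((p + 4) * (p + 3)) * x none ^ (p + 4) = (x none ^ (p + 4)) ^ (p + 4) := by
      rw [← pow_add, ← pow_mul]
      exact congrArg (fun n => x none ^ n) (by ring)
    have h2 : ((x none)⁻¹ ^ (p + 4)) ^ (p + 4) * (x none ^ (p + 4)) ^ (p + 4) = 1 := by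
      rw [← mul_pow, ← mul_pow, hbi, one_pow, one_pow]
    have h3 : ((x none)⁻¹ ^ (p + 4)) ^ (p + 4) * (2 * (τ ^ (p + 3) * x none ^ ((p + 4) * (p + 3))) *
        x none ^ (p + 4)) = 2 * τ ^ (p + 3) *
        (((x none)⁻¹ ^ (p + 4)) ^ (p + 4) * (x none ^ ((p + 4) * (p + 3)) * x none ^ (p + 4))) := by ring
    rw [h3, h1, h2]
    ring

/-- genericity of `ρ` -/
theorem good_rho {p : ℕ} {P : MvPolynomial (Option ι) ℂ} (hP : P.IsHomogeneous (p + 4 + 1))
    (hns : ∀ x : Option ι → ℂ, x none = 0 → (∀ i, eval x (pderiv (some i) P) = 0) → x = 0) {τ : ℂ} (hτ : τ ≠ 0) :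
    {ρ : ℂ | ¬ ∀ p' : Option (Option ι) → ℂ, vD p τ ρ (p' (some none)) (p' none) = 0 →
      eval (fun j => p' (some j)) (pderiv none P) + ((p : ℂ) + 4) * τ * (p' none * p' (some none) ^ (p + 3)) +
        2 * ρ * (p' none ^ (p + 3) * p' (some none)) = 0 →
      (∀ i, eval (fun j => p' (some j)) (pderiv (some i) P) = 0) → p' = 0}.Finite := by
  have hd : ∀ j : Option ι, (pderiv j P).IsHomogeneous (p + 4) := fun j => hP.pderiv
  have hqn3 : (p : ℂ) + 3 ≠ 0 := by
    have : ((p + 3 : ℕ) : ℂ) ≠ 0 := Nat.cast_ne_zero.mpr (by omega)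
    push_cast at this
    exact this
  have hqn2 : (p : ℂ) + 2 ≠ 0 := by
    have : ((p + 2 : ℕ) : ℂ) ≠ 0 := Nat.cast_ne_zero.mpr (by omega)
    push_cast at this
    exact this
  have hqn5 : (p : ℂ) + 5 ≠ 0 := by
    have : ((p + 5 : ℕ) : ℂ) ≠ 0 := Nat.cast_ne_zero.mpr (by omega)
    push_cast at this
    exact this
  have hZ := (finLines_of_hyperplane (Set.range fun i : ι => pderiv (some i) P) (by
    rintro _ ⟨i, rfl⟩
    exact ⟨_, hd (some i)⟩) one_pos (isHomogeneous_X ℂ (none : Option ι)) (by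
    intro x hx h0
    rw [eval_X] at h0
    exact hns x h0 fun i => hx _ ⟨i, rfl⟩)).finite_chart none
  let Wf : (Option ι → ℂ) → ℂ := fun x =>
    - (eval x (pderiv none P)) * ((p : ℂ) + 3) / (τ * (((p : ℂ) + 2) * ((p : ℂ) + 5)))
  refine ((hZ.image fun x => - τ / (((p : ℂ) + 3) * Wf x ^ (p + 2))).insert 0).subset ?_
  intro ρ hρ
  have hρ' : ¬ ∀ p' : Option (Option ι) → ℂ, vD p τ ρ (p' (some none)) (p' none) = 0 →
      eval (fun j => p' (some j)) (pderiv none P) + ((p : ℂ) + 4) * τ * (p' none * p' (some none) ^ (p + 3)) +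
        2 * ρ * (p' none ^ (p + 3) * p' (some none)) = 0 →
      (∀ i, eval (fun j => p' (some j)) (pderiv (some i) P) = 0) → p' = 0 := hρ
  push Not at hρ'
  obtain ⟨v, h1, h2, h3, hv0⟩ := hρ'
  set w := v none with hw
  set b := v (some none) with hb
  unfold vD at h1
  by_cases hb0 : b = 0
  · left
    have h4 := hns (fun j => v (some j)) hb0 h3
    have hw0 : w ≠ 0 := by
      intro h0
      apply hv0
      funext o
      rcases o with _ | j
      · exact h0
      · exact congrFun h4 j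
    rw [hb0, zero_pow (by omega), mul_zero, zero_add] at h1
    have h5 := (mul_eq_zero.mp h1).resolve_right (pow_ne_zero _ hw0)
    exact (mul_eq_zero.mp h5).resolve_left hqn3
  · right
    have hbi : b⁻¹ * b = 1 := inv_mul_cancel₀ hb0
    have hb' : b * b⁻¹ = 1 := mul_inv_cancel₀ hb0
    -- scaled point
    have hw0 : w ≠ 0 := by
      intro h0
      rw [h0, zero_pow (by omega), mul_zero, add_zero] at h1
      exact (mul_ne_zero hτ (pow_ne_zero _ hb0)) h1
    have hk : ∀ n : ℕ, b⁻¹ ^ n * b ^ n = 1 := fun n => by rw [← mul_pow, hbi, one_pow]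
    have e1 : τ + ((p : ℂ) + 3) * ρ * (b⁻¹ * w) ^ (p + 2) = 0 := by
      have : b⁻¹ ^ (p + 2) * (τ * b ^ (p + 2) + ((p : ℂ) + 3) * ρ * w ^ (p + 2)) = 0 := by rw [h1, mul_zero]
      rw [mul_pow]
      linear_combination this - τ * hk (p + 2)
    have e2 : eval (b⁻¹ • fun j => v (some j)) (pderiv none P) + ((p : ℂ) + 4) * τ * (b⁻¹ * w) +
        2 * ρ * (b⁻¹ * w) ^ (p + 3) = 0 := by
      rw [eval_smul_hom (hd none)]
      have : b⁻¹ ^ (p + 4) * (eval (fun j => v (some j)) (pderiv none P) +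
        ((p : ℂ) + 4) * τ * (w * b ^ (p + 3)) + 2 * ρ * (w ^ (p + 3) * b)) = 0 := by rw [h2, mul_zero]
      have k1 : b⁻¹ ^ (p + 4) * (w * b ^ (p + 3)) = b⁻¹ * w := by
        have : b⁻¹ ^ (p + 4) * (w * b ^ (p + 3)) = b⁻¹ * w * (b⁻¹ ^ (p + 3) * b ^ (p + 3)) := by ring
        rw [this, hk, mul_one]
      have k2 : b⁻¹ ^ (p + 4) * (w ^ (p + 3) * b) = (b⁻¹ * w) ^ (p + 3) := by
        have : b⁻¹ ^ (p + 4) * (w ^ (p + 3) * b) = (b⁻¹ * w) ^ (p + 3) * (b⁻¹ * b) := by
          rw [mul_pow]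
          ring
        rw [this, hbi, mul_one]
      linear_combination this - ((p : ℂ) + 4) * τ * k1 - 2 * ρ * k2
    set W := b⁻¹ * w with hW
    have hW0 : W ≠ 0 := mul_ne_zero (inv_ne_zero hb0) hw0
    have e3 : ((p : ℂ) + 3) * eval (b⁻¹ • fun j => v (some j)) (pderiv none P) +
        τ * (((p : ℂ) + 2) * ((p : ℂ) + 5)) * W = 0 := by
      have : ρ * (((p : ℂ) + 3) * W ^ (p + 3)) = - τ * W := by
        rw [pow_succ W (p + 2)]
        linear_combination W * e1
      linear_combination ((p : ℂ) + 3) * e2 - 2 * this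
    have hWf : Wf (b⁻¹ • fun j => v (some j)) = W := by
      change - (eval _ (pderiv none P)) * ((p : ℂ) + 3) / (τ * (((p : ℂ) + 2) * ((p : ℂ) + 5))) = W
      rw [div_eq_iff (mul_ne_zero hτ (mul_ne_zero hqn2 hqn5))]
      linear_combination -e3
    refine ⟨b⁻¹ • fun j => v (some j), ⟨?_, hbi⟩, ?_⟩
    · rintro _ ⟨i, rfl⟩
      change eval _ (pderiv (some i) P) = 0
      rw [eval_smul_hom (hd (some i)), h3 i, mul_zero]
    · change - τ / (((p : ℂ) + 3) * Wf (b⁻¹ • fun j => v (some j)) ^ (p + 2)) = ρ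
      rw [hWf, div_eq_iff (mul_ne_zero hqn3 (pow_ne_zero _ hW0))]
      linear_combination -e1

/-- **the core** -/
theorem core_rz {q M : ℕ} (hq : q = 4 ∨ q = 5) {P : MvPolynomial (Option ι) ℂ} {S : Finset (ι → ℂ)}
    (h : IQD q ι P S M) : Rz q (Fintype.card ι + 4) ((q ^ 2 + 2 * q - 3) * q ^ Fintype.card ι + M) := by
  classical
  obtain ⟨p, hpq⟩ : ∃ p, q = p + 4 := by
    rcases hq with rfl | rfl
    · exact ⟨0, rfl⟩
    · exact ⟨1, rfl⟩
  subst hpq
  have hP : P.IsHomogeneous (p + 4 + 1) := h.hom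
  obtain ⟨τ, hτ⟩ := ((good_tau hP h.fin).union (Set.finite_singleton (0 : ℂ))).infinite_compl.nonempty
  rw [Set.mem_compl_iff, Set.mem_union, not_or, Set.mem_singleton_iff] at hτ
  obtain ⟨hτ1, hτ0⟩ := hτ
  have hτ2 := not_not.mp hτ1
  obtain ⟨ρ, hρ⟩ := ((good_rho hP h.ns hτ0).union (Set.finite_singleton (0 : ℂ))).infinite_compl.nonempty
  rw [Set.mem_compl_iff, Set.mem_union, not_or, Set.mem_singleton_iff] at hρ
  obtain ⟨hρ1, hρ0⟩ := hρ
  have hD := not_not.mp hρ1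
  have e2 : p + 4 - 2 = p + 2 := by omega
  have e1 : p + 4 - 1 = p + 3 := by omega
  have hm := core_mul (τ := τ) (ρ := ρ) (δ := 1) (β := 1) hq h hτ0 hρ0 one_ne_zero (by
    intro v h1 h2 h3
    rw [e2] at h1
    rw [e1] at h2
    push_cast at h1 h2
    refine hD v ?_ h2 h3
    unfold vD
    linear_combination h1)
  rw [← coreF_aff (by omega)] at hm
  have hpos : (p + 4) ^ 2 + 2 * (p + 4) - 3 ≠ 0 := by
    have : 3 < (p + 4) ^ 2 + 2 * (p + 4) := by nlinarith
    omega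
  have hm0 : mulAt (affIdeal (coreF (p + 4) τ ρ 1 1 P) (gram (Option (Option ι))) (some none)) 0 ≠ 0 := by
    rw [hm]
    have := Nat.pos_of_ne_zero hpos
    positivity
  have hfin := coreF_finLines hP h.fin h.ns hτ0 hρ0 one_ne_zero one_ne_zero hD hτ2 hm0
  refine rz_of_form (τ := Option (Option ι)) (by simp only [Fintype.card_option])
    (coreF (p + 4) τ ρ 1 1 P) (coreF_hom τ ρ 1 1 hP) hfin ?_ hm
  intro g hg
  exact eval_eq_zero_of_pos hm0 hg

end

end Core

end EY
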