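import Pool.Agent.helper81.EY.IDef
import Pool.Agent.helper40.EY.WBez

set_option autoImplicit false
set_option linter.unusedSectionVars false

/-!
# EY-YMul: the multiplicity of the Y-form `P(x) + y² Q` at the point `e_y` is `(X' - 1) q^K`

Weights in the chart `y = 1`: `b : q`, `z : X'`.
-/

namespace EY

open MvPolynomial

section ymul

variable {τ : Type} [Fintype τ] [DecidableEq τ]

lemma ym_dehom_rename (g : MvPolynomial (Option τ) ℂ) :
    dehom (rename some g : MvPolynomial (Option (Option τ)) ℂ) = g := by
  have h : (dehom : MvPolynomial (Option (Option τ)) ℂ →ₐ[ℂ] MvPolynomial (Option τ) ℂ).comp (rename some) =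
      AlgHom.id ℂ _ := by
    apply MvPolynomial.algHom_ext
    intro o
    rw [AlgHom.comp_apply, rename_X, dehom_X_some]; rfl
  exact AlgHom.congr_fun h g

lemma ym_pderiv_none (g : MvPolynomial (Option τ) ℂ) :
    pderiv none (rename some g : MvPolynomial (Option (Option τ)) ℂ) = 0 := by
  apply pderiv_eq_zero_of_notMem_vars
  intro h
  have h1 := vars_rename some g h
  simp at h1

lemma ym_pderiv_some (g : MvPolynomial (Option τ) ℂ) (i : Option τ) :
    pderiv (some i) (rename some g : MvPolynomial (Option (Option τ)) ℂ) = rename some (pderiv i g) :=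
  pderiv_rename (Option.some_injective _) i g

lemma ym_sl_one {κ : Type} [Fintype κ] [DecidableEq κ] (j : κ) : sl (1 : Matrix κ κ ℂ) j = X j := by
  unfold sl
  rw [Finset.sum_eq_single j]
  · simp
  · intro k _ hk
    rw [Matrix.one_apply_ne (Ne.symm hk), C_0, zero_mul]
  · intro h; exact absurd (Finset.mem_univ j) h

/-- the weights: `b : q`, `z : X'` -/
def ymw (q X' : ℕ) : Option τ → ℕ := fun o => o.elim q fun _ => X'

/-- the `y`-part of the Y-form -/
lemma ym_parts (q X' : ℕ) (hX1 : 2 ≤ X') (hX2 : X' ≤ q - 1) (a : ℂ) (ha : a ≠ 0) :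
    ∃ c : ℂ, c ≠ 0 ∧
      Lead (ymw (τ := τ) q X') (q * (X' - 1))
        (dehom (pderiv (some none) (X none ^ 2 * yQ (τ := τ) q X' a))) (C c * X none ^ (X' - 1)) ∧
      wlo (ymw (τ := τ) q X') (q * X') (dehom (pderiv none (X none ^ 2 * yQ (τ := τ) q X' a))) ∧
      ∀ i : τ, pderiv (some (some i)) (X none ^ 2 * yQ (τ := τ) q X' a) = 0 := by
  have hq : 3 ≤ q := by omega
  have hwn : ∀ k, wlo (ymw (τ := τ) q X') (q * k) (X none ^ k : MvPolynomial (Option τ) ℂ) := fun k =>
    wlo_pow (wh_X (ymw (τ := τ) q X') none).wlo k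
  have dC : ∀ c : ℂ, dehom (C c : MvPolynomial (Option (Option τ)) ℂ) = C c := fun c => dehom.commutes c
  by_cases hX : X' = q - 1
  · -- `X' = q - 1`
    have hyQ : yQ (τ := τ) q X' a = C (a / 2) * X (some none) ^ (q - 1) := by
      unfold yQ; rw [if_pos hX]
    have e1 : dehom (pderiv (some none) (X none ^ 2 * yQ (τ := τ) q X' a)) =
        C (a / 2 * (q - 1 : ℕ)) * X none ^ (X' - 1) := by
      rw [hyQ]
      simp only [Derivation.leibniz, Derivation.leibniz_pow, pderiv_X, pderiv_C, smul_eq_mul, nsmul_eq_mul,
        map_add, map_mul, map_pow, dehom_X_none, dehom_X_some, dC, map_natCast]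
      simp
      rw [hX]
      ring
    have e2 : dehom (pderiv none (X none ^ 2 * yQ (τ := τ) q X' a)) = C a * X none ^ X' := by
      rw [hyQ]
      simp only [Derivation.leibniz, Derivation.leibniz_pow, pderiv_X, pderiv_C, smul_eq_mul, nsmul_eq_mul,
        map_add, map_mul, map_pow, dehom_X_none, dehom_X_some, dC, map_natCast]
      simp
      rw [hX]
      have : (C a : MvPolynomial (Option τ) ℂ) = C (a / 2) * 2 := by
        rw [show (2 : MvPolynomial (Option τ) ℂ) = C 2 from (map_ofNat C 2).symm, ← C_mul]
        congr 1; ring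
      rw [this]; ring
    refine ⟨a / 2 * (q - 1 : ℕ), ?_, ?_, ?_, ?_⟩
    · apply mul_ne_zero (div_ne_zero ha two_ne_zero)
      rw [Nat.cast_ne_zero]; omega
    · rw [e1]
      exact (Lead.self (hwn (X' - 1))).C_mul _
    · rw [e2]
      exact wlo_C_mul _ (hwn X')
    · intro i
      rw [hyQ]
      simp [Derivation.leibniz, Derivation.leibniz_pow, pderiv_X]
  · -- `X' < q - 1`
    have hX3 : X' + 1 ≤ q - 1 := by omega
    have hc : ((q : ℂ) + 1 - X') ≠ 0 := by
      have : ((q : ℂ) + 1 - X') = ((q + 1 - X' : ℕ) : ℂ) := by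
        rw [Nat.cast_sub (by omega)]; push_cast; ring
      rw [this, Nat.cast_ne_zero]; omega
    have hyQ : yQ (τ := τ) q X' a = C (a / 2) * X (some none) ^ (q - 1) -
        C (a / ((q : ℂ) + 1 - X')) * (X (some none) ^ X' * X none ^ (q - 1 - X')) := by
      unfold yQ; rw [if_neg hX]
    have e1 : dehom (pderiv (some none) (X none ^ 2 * yQ (τ := τ) q X' a)) =
        C (-(a / ((q : ℂ) + 1 - X') * X')) * X none ^ (X' - 1) + C (a / 2 * (q - 1 : ℕ)) * X none ^ (q - 2) := by
      rw [hyQ]
      simp only [Derivation.leibniz, Derivation.leibniz_pow, pderiv_X, pderiv_C, smul_eq_mul, nsmul_eq_mul,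
        map_add, map_sub, map_mul, map_pow, dehom_X_none, dehom_X_some, dC, map_natCast]
      simp
      have : q - 1 - 1 = q - 2 := by omega
      rw [this]
      ring
    have e2 : dehom (pderiv none (X none ^ 2 * yQ (τ := τ) q X' a)) =
        C a * (X none ^ (q - 1) - X none ^ X') := by
      rw [hyQ]
      simp only [Derivation.leibniz, Derivation.leibniz_pow, pderiv_X, pderiv_C, smul_eq_mul, nsmul_eq_mul,
        map_add, map_sub, map_mul, map_pow, dehom_X_none, dehom_X_some, dC, map_natCast]
      simp
      have h2 : (C a : MvPolynomial (Option τ) ℂ) = C (a / 2) * 2 := by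
        rw [show (2 : MvPolynomial (Option τ) ℂ) = C 2 from (map_ofNat C 2).symm, ← C_mul]
        congr 1; ring
      have h3 : (C a : MvPolynomial (Option τ) ℂ) =
          C (a / ((q : ℂ) + 1 - X')) * (((q - 1 - X' : ℕ) : MvPolynomial (Option τ) ℂ) + 2) := by
        have h4 : (((q - 1 - X' : ℕ) : MvPolynomial (Option τ) ℂ) + 2) = C ((q : ℂ) + 1 - X') := by
          rw [← map_natCast (C : ℂ →+* MvPolynomial (Option τ) ℂ), show (2 : MvPolynomial (Option τ) ℂ) = C 2
            from (map_ofNat C 2).symm, ← C_add]
          congr 1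
          have : q - 1 - X' = q - (X' + 1) := by omega
          rw [this, Nat.cast_sub (by omega)]
          push_cast; ring
        rw [h4, ← C_mul]
        congr 1; field_simp
      rw [mul_sub]
      nth_rewrite 1 [h2]
      rw [h3]
      ring
    refine ⟨-(a / ((q : ℂ) + 1 - X') * X'), ?_, ?_, ?_, ?_⟩
    · apply neg_ne_zero.mpr
      apply mul_ne_zero (div_ne_zero ha hc)
      rw [Nat.cast_ne_zero]; omega
    · rw [e1]
      apply Lead.add_hi
      · exact (Lead.self (hwn (X' - 1))).C_mul _
      · apply wlo_C_mul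
        refine wlo_mono ?_ (hwn (q - 2))
        have h4 : X' - 1 + 1 ≤ q - 2 := by omega
        have h5 := Nat.mul_le_mul_left q h4
        rw [Nat.mul_succ] at h5
        omega
    · rw [e2]
      apply wlo_C_mul
      apply wlo_sub
      · exact wlo_mono (Nat.mul_le_mul_left q hX2) (hwn (q - 1))
      · exact hwn X'
    · intro i
      rw [hyQ]
      simp [Derivation.leibniz, Derivation.leibniz_pow, pderiv_X]

variable {q M : ℕ} {P : MvPolynomial (Option τ) ℂ} {S : Finset (τ → ℂ)}

/-- a homogeneous polynomial of degree `q` in the weights `b : q`, `z : X'` -/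
lemma ym_lead {g : MvPolynomial (Option τ) ℂ} (hg : g.IsHomogeneous q) (X' : ℕ) (hX : X' < q) :
    Lead (ymw (τ := τ) q X') (q * X') g
      (aeval (fun o : Option τ => o.elim (0 : MvPolynomial (Option τ) ℂ) fun t => X (some t)) g) := by
  have hp : ∀ o : Option τ, Lead (ymw (τ := τ) q X') X' (X o : MvPolynomial (Option τ) ℂ)
      (o.elim (0 : MvPolynomial (Option τ) ℂ) fun t => X (some t)) := by
    intro o
    rcases o with _ | t
    · exact Lead.of_lt (wh_X (ymw (τ := τ) q X') none).wlo hX
    · exact Lead.self (wh_X (ymw (τ := τ) q X') (some t)).wlo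
  have h1 : Lead (fun _ : Option τ => X') (q * X') g g := by
    apply Lead.self
    intro α hα
    have h2 : q = ∑ i, α i := by
      rw [hg.degree_eq_sum_deg_support (mem_support_iff.mpr hα)]
      exact Finset.sum_subset (Finset.subset_univ _) fun i _ hi => by simpa using hi
    unfold wd
    rw [← Finset.mul_sum, ← h2, mul_comm]
  have h3 := Lead.aeval hp h1
  rwa [aeval_X_left_apply] at h3

/-- the multiplicity of the Y-form at `e_y` -/
theorem yform_mul_y49 (hq : 2 ≤ q) (h : IQD q τ P S M) (X' : ℕ) (h1 : 2 ≤ X') (h2 : X' ≤ q - 1) (a : ℂ)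
    (ha : a ≠ 0) :
    mulAt (affIdeal (yform q X' a P) (1 : Matrix (Option (Option τ)) (Option (Option τ)) ℂ) none) 0 =
      (X' - 1) * q ^ Fintype.card τ := by
  obtain ⟨c, hc, hD, hW, hZ⟩ := ym_parts (τ := τ) q X' h1 h2 a ha
  set D := dehom (pderiv (some none) (X none ^ 2 * yQ (τ := τ) q X' a)) with hDd
  set W := dehom (pderiv none (X none ^ 2 * yQ (τ := τ) q X' a)) with hWd
  set φ0 : MvPolynomial (Option τ) ℂ →ₐ[ℂ] MvPolynomial (Option τ) ℂ :=
    aeval (fun o : Option τ => o.elim (0 : MvPolynomial (Option τ) ℂ) fun t => X (some t)) with hφ0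
  -- the system
  set F : Option τ → MvPolynomial (Option τ) ℂ := fun o => o.elim (D + pderiv none P - X none * W)
    (fun i => pderiv (some i) P - X (some i) * W) with hF
  set G : Option τ → MvPolynomial (Option τ) ℂ := fun o => o.elim (C c * X none ^ (X' - 1))
    (fun i => φ0 (pderiv (some i) P)) with hG
  set d : Option τ → ℕ := fun o => o.elim (q * (X' - 1)) (fun _ => q * X') with hd
  have hgen : ∀ o : Option τ, dehom (pderiv (some o) (yform q X' a P) -
      sl (1 : Matrix (Option (Option τ)) (Option (Option τ)) ℂ) (some o) * pderiv none (yform q X' a P)) = F o := by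
    intro o
    have e1 : pderiv (some o) (yform q X' a P) =
        rename some (pderiv o P) + pderiv (some o) (X none ^ 2 * yQ q X' a) := by
      unfold yform; rw [map_add, ym_pderiv_some]
    have e0 : pderiv none (yform q X' a P) = pderiv none (X none ^ 2 * yQ q X' a) := by
      unfold yform; rw [map_add, ym_pderiv_none, zero_add]
    rw [ym_sl_one, e1, e0, map_sub dehom, map_mul dehom, dehom_X_some, map_add dehom, ym_dehom_rename]
    rcases o with _ | i
    · rw [← hDd, ← hWd, hF]
      simp only [Option.elim]
      ring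
    · rw [hZ i, ← hWd, hF, map_zero]
      simp only [Option.elim]
      ring
  have hI : affIdeal (yform q X' a P) (1 : Matrix (Option (Option τ)) (Option (Option τ)) ℂ) none =
      Ideal.span (Set.range F) := by
    unfold affIdeal
    apply le_antisymm
    · rw [Ideal.span_le]
      rintro _ ⟨j, rfl⟩
      rcases j with _ | o
      · simp only []
        rw [ym_sl_one, map_sub, map_mul, dehom_X_none, one_mul, sub_self]
        exact Ideal.zero_mem _
      · simp only []
        rw [hgen]
        exact Ideal.subset_span ⟨o, rfl⟩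
    · rw [Ideal.span_le]
      rintro _ ⟨o, rfl⟩
      rw [← hgen o]
      exact Ideal.subset_span ⟨some o, rfl⟩
  have hXq : X' < q := by omega
  have hw : ∀ o, 0 < ymw (τ := τ) q X' o := by
    intro o
    rcases o with _ | i
    · change 0 < q; omega
    · change 0 < X'; omega
  have hdpos : ∀ o, 0 < d o := by
    intro o
    rcases o with _ | i
    · exact Nat.mul_pos (by omega) (by omega)
    · exact Nat.mul_pos (by omega) (by omega)
  have hPhom : ∀ o : Option τ, (pderiv o P).IsHomogeneous q := by
    intro o
    have := h.hom.pderiv (i := o)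
    rwa [Nat.add_sub_cancel] at this
  have hGw : ∀ o, wh (ymw (τ := τ) q X') (d o) (G o) := by
    intro o
    rcases o with _ | i
    · exact wh_C_mul c (wh_pow (wh_X (ymw (τ := τ) q X') none) (X' - 1))
    · change wh (ymw (τ := τ) q X') (q * X') (φ0 (pderiv (some i) P))
      have h3 : wh (fun _ : Option τ => X') (q * X') (pderiv (some i) P) := by
        intro α hα
        have h2 : q = ∑ i, α i := by
          rw [(hPhom (some i)).degree_eq_sum_deg_support (mem_support_iff.mpr hα)]
          exact Finset.sum_subset (Finset.subset_univ _) fun i _ hi => by simpa using hi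
        unfold wd
        rw [← Finset.mul_sum, ← h2, mul_comm]
      refine wh_aeval ?_ h3
      intro o
      rcases o with _ | t
      · exact wh_zero _ _
      · exact wh_X (ymw (τ := τ) q X') (some t)
  have hlead : ∀ o, Lead (ymw (τ := τ) q X') (d o) (F o) (G o) := by
    intro o
    rcases o with _ | i
    · change Lead (ymw (τ := τ) q X') (q * (X' - 1)) (D + pderiv none P - X none * W) (C c * X none ^ (X' - 1))
      have e : D + pderiv none P - X none * W = D + (pderiv none P - X none * W) := by ring
      rw [e]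
      have h5 : q * (X' - 1) + 1 ≤ q * X' := by
        have : q * (X' - 1) + q = q * X' := by
          rw [← Nat.mul_succ]; congr 1; omega
        omega
      apply hD.add_hi
      apply wlo_sub
      · exact wlo_mono h5 (ym_lead (hPhom none) X' hXq).lof
      · exact wlo_mono h5 (wlo_mul_left _ hW)
    · change Lead (ymw (τ := τ) q X') (q * X') (pderiv (some i) P - X (some i) * W) (φ0 (pderiv (some i) P))
      rw [sub_eq_add_neg]
      apply (ym_lead (hPhom (some i)) X' hXq).add_hi
      apply wlo_neg
      have h6 := wlo_mul (wh_X (ymw (τ := τ) q X') (some i)).wlo hW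
      refine wlo_mono ?_ h6
      change q * X' + 1 ≤ X' + q * X'
      omega
  have h0 : ∀ x : Option τ → ℂ, (∀ o, eval x (G o) = 0) → x = 0 := by
    intro x hx
    have hb : x none = 0 := by
      have h3 := hx none
      change eval x (C c * X none ^ (X' - 1)) = 0 at h3
      rw [map_mul, eval_C, map_pow, eval_X] at h3
      rcases mul_eq_zero.mp h3 with h3 | h3
      · exact absurd h3 hc
      · exact pow_eq_zero_iff (by omega) |>.mp h3
    apply h.ns x hb
    intro i
    have h3 := hx (some i)
    change eval x (φ0 (pderiv (some i) P)) = 0 at h3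
    have h4 : ∀ g : MvPolynomial (Option τ) ℂ, eval x (φ0 g) = eval x g := by
      intro g
      induction g using MvPolynomial.induction_on with
      | C r => rw [hφ0, aeval_C, MvPolynomial.algebraMap_eq, eval_C]
      | add p r hp hr => rw [map_add, map_add, map_add, hp, hr]
      | mul_X p o hp =>
        rw [map_mul, map_mul, map_mul, hp, eval_X]
        congr 1
        rw [hφ0, aeval_X]
        rcases o with _ | t
        · simp only [Option.elim]
          rw [map_zero, hb]
        · simp only [Option.elim]
          rw [eval_X]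
    rwa [h4] at h3
  have h7 := wBez hw hdpos hGw h0 hlead
  rw [hI]
  rw [Fintype.prod_option, Fintype.prod_option] at h7
  change mulAt (Ideal.span (Set.range F)) 0 * (q * ∏ _i : τ, X') = (q * (X' - 1)) * ∏ _i : τ, (q * X') at h7
  rw [Finset.prod_const, Finset.prod_const, Finset.card_univ, mul_pow] at h7
  have hpos : 0 < q * X' ^ Fintype.card τ := Nat.mul_pos (by omega) (pow_pos (by omega) _)
  have h8 : mulAt (Ideal.span (Set.range F)) 0 * (q * X' ^ Fintype.card τ) =
      ((X' - 1) * q ^ Fintype.card τ) * (q * X' ^ Fintype.card τ) := by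
    rw [h7]; ring
  exact Nat.eq_of_mul_eq_mul_right hpos h8

end ymul

end EY
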