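import Pool.Agent.helper49.EY.CRz
import Pool.Agent.helper46.U.Final
import Pool.Agent.helper81.EY.EStep

set_option autoImplicit false

/-!
# EY-CWin: the window of the core form: `[(q² + 2 q - 3) q^K, (q² + 2 q - 3) q^K + D(K+1)]`, `q = 4, 5`
-/

namespace EY

namespace Core

theorem core_win {q : ℕ} (hq : q = 4 ∨ q = 5) (K m : ℕ) (hm : m ≤ dd q (K + 1)) :
    Rz q (K + 4) ((q ^ 2 + 2 * q - 3) * q ^ K + m) := by
  have hq2 : 2 ≤ q := by omega
  have h := ik_all hq2 (fun K E _ h => U_crit hq2 K E h) (K + 1) m (by omega) hm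
  obtain ⟨P, S, hD⟩ : IQ q (Fin K) m := iq_of_ik (by omega) (by rw [Fintype.card_fin]) h
  have h4 := core_rz hq hD
  rwa [Fintype.card_fin] at h4

/-- `q = 4`: everything in `[5.25, 5.58]` (units `4 ^ (K+1)`) -/
theorem core4 (K m : ℕ) (h1 : 21 * 4 ^ K ≤ m) (h2 : 3 * m + 1 ≤ 67 * 4 ^ K) : Rz 4 (K + 4) m := by
  obtain ⟨m', rfl⟩ : ∃ m', m = 21 * 4 ^ K + m' := ⟨m - 21 * 4 ^ K, by omega⟩
  refine core_win (q := 4) (Or.inl rfl) K m' ?_
  have h3 : 3 * dd 4 (K + 1) + 1 = 4 ^ (K + 1) := by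
    unfold dd
    induction K with
    | zero => norm_num
    | succ K ih =>
      rw [Finset.sum_range_succ]
      have h5 : 3 * (∑ i ∈ Finset.range (K + 1), 4 ^ i) + 1 = 4 ^ (K + 1) := by
        clear h1 h2 ih
        induction K with
        | zero => norm_num
        | succ K ih => rw [Finset.sum_range_succ]; ring_nf at ih ⊢; omega
      rw [pow_succ 4 (K + 1)]
      omega
  rw [pow_succ] at h3
  omega

end Core

end EY
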